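import Pool.Agent.Helper87.MM.Top3
import Pool.Agent.Helper44.CM.Interface

/-!
Project MM, row S0: solvability of `(A - 1) u = r` for the Gaussian, `r` even in `C^{3,1/2}`.
-/

open MeasureTheory Filter
open scoped Topology

namespace CM87

open CM

variable {n : ℕ}

theorem pdl_contDiff (l : List (Fin n)) : ∀ {k : ℕ} {f : E n → ℝ},
    ContDiff ℝ (k + l.length : ℕ) f → ContDiff ℝ k (pdl l f) := by
  induction l with
  | nil => intro k f hf; exact hf
  | cons i l ih =>
      intro k f hf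
      refine pd_contDiff (ih (k := k + 1) ?_) i
      have : k + 1 + l.length = k + (i :: l).length := by simp; omega
      rw [this]
      exact hf

theorem HB.contDiff_pdl {N : ℝ} {r : E n → ℝ} (h : HB 3 N r) (l : List (Fin n))
    {k : ℕ} (hl : k + l.length = 3) : ContDiff ℝ k (pdl l r) :=
  pdl_contDiff l (by rw [hl]; exact h.1)

theorem HB.cont_pdl {N : ℝ} {r : E n → ℝ} (h : HB 3 N r) (l : List (Fin n))
    (hl : l.length ≤ 3) : Continuous (pdl l r) :=
  (HB.contDiff_pdl h l (k := 3 - l.length) (by omega)).continuous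

theorem HB.deriv_pdl {N : ℝ} {r : E n → ℝ} (h : HB 3 N r) (l : List (Fin n))
    (hl : l.length ≤ 2) (x : E n) :
    HasFDerivAt (pdl l r) (co fun i => pdl (i :: l) r x) x := by
  refine hasFDerivAt_co ?_
  have h1 := HB.contDiff_pdl h l (k := 3 - l.length) (by omega)
  refine (h1.differentiable ?_) x
  have : 3 - l.length ≠ 0 := by omega
  exact_mod_cast this

theorem pd_odd {f : E n → ℝ} (hf : IsEv f) (hd : Differentiable ℝ f) (i : Fin n) (x : E n) :
    pd i f (-x) = -pd i f x := by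
  have h1 : HasFDerivAt (fun y : E n => -y) (-ContinuousLinearMap.id ℝ (E n)) x :=
    (hasFDerivAt_id x).neg
  have h2 : HasFDerivAt (fun y => f (-y)) ((fderiv ℝ f (-x)).comp
      (-ContinuousLinearMap.id ℝ (E n))) x := (hd (-x)).hasFDerivAt.comp x h1
  have h3 : (fun y => f (-y)) = f := funext hf
  rw [h3] at h2
  unfold pd
  rw [h2.fderiv]
  simp

theorem J_even {G : E n → ℝ} (hG : IsEv G) (θ : ℝ) : IsEv (J gk G θ) := by
  intro x
  unfold J
  rw [← integral_neg_eq_self]
  refine integral_congr_ae (Eventually.of_forall fun z => ?_)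
  simp only
  rw [gk_neg, ← hG (Real.cos θ • x + Real.sin θ • z)]
  congr 2
  rw [smul_neg, smul_neg, neg_add]

theorem J_odd_zero {G : E n → ℝ} (hG : ∀ x, G (-x) = -G x) (θ : ℝ) : J gk G θ 0 = 0 := by
  have h1 := integral_neg_eq_self (fun z : E n => G (Real.cos θ • (0 : E n) +
    Real.sin θ • z) * gk z) volume
  have h2 : ∀ z : E n, G (Real.cos θ • (0 : E n) + Real.sin θ • (-z)) * gk (-z) =
      -(G (Real.cos θ • (0 : E n) + Real.sin θ • z) * gk z) := by
    intro z
    rw [gk_neg, smul_zero, zero_add, zero_add, smul_neg, hG]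
    ring
  simp only [h2, integral_neg] at h1
  unfold J
  linarith

/-- First order decay. -/
theorem E1 {G : E n → ℝ} {c : Fin n → E n → ℝ} {N : ℝ}
    (hG : ∀ y, HasFDerivAt G (co fun i => c i y) y) (hcc : ∀ i, Continuous (c i))
    (hN : ∀ x, |G x| ≤ N) (hcN : ∀ i x, |c i x| ≤ N) (hodd : ∀ x, G (-x) = -G x)
    {θ : ℝ} (hθ : 0 ≤ Real.cos θ) (x : E n) :
    |J gk G θ x| ≤ n * (Real.cos θ * N) * ‖x‖ := by
  have h1 := lip_of_pd (f := J gk G θ) (c := fun i x => Real.cos θ * J gk (c i) θ x)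
    (fun z => J_deriv ker_gk hG hcc hN hcN θ z) (B := Real.cos θ * N) (fun i z => by
      rw [abs_mul, abs_of_nonneg hθ]
      refine mul_le_mul_of_nonneg_left ?_ hθ
      have := J_bd ker_gk (hcN i) θ z
      rwa [gk1, mul_one] at this) x 0
  rwa [J_odd_zero hodd, sub_zero, dist_zero_right] at h1

/-- Second order decay. -/
theorem E0 {r : E n → ℝ} {c : Fin n → E n → ℝ} {d : Fin n → Fin n → E n → ℝ} {N : ℝ}
    (hr : ∀ y, HasFDerivAt r (co fun i => c i y) y)
    (hc : ∀ i y, HasFDerivAt (c i) (co fun j => d i j y) y)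
    (hdc : ∀ i j, Continuous (d i j))
    (hN : ∀ x, |r x| ≤ N) (hcN : ∀ i x, |c i x| ≤ N) (hdN : ∀ i j x, |d i j x| ≤ N)
    (hodd : ∀ i x, c i (-x) = -c i x)
    {θ : ℝ} (hθ : 0 ≤ Real.cos θ) (x : E n) :
    |J gk r θ x - J gk r θ 0| ≤ n * (n * (Real.cos θ * N) * ‖x‖) * ‖x‖ * Real.cos θ := by
  have hcc : ∀ i, Continuous (c i) := fun i =>
    continuous_iff_continuousAt.2 fun z => (hc i z).continuousAt
  have hN0 : 0 ≤ N := (abs_nonneg _).trans (hN 0)
  have h := Convex.norm_image_sub_le_of_norm_hasFDerivWithin_le (𝕜 := ℝ) (f := J gk r θ)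
    (f' := fun x => co (fun i => Real.cos θ * J gk (c i) θ x))
    (C := n * (Real.cos θ * (n * (Real.cos θ * N) * ‖x‖)))
    (s := Metric.closedBall 0 ‖x‖) (x := 0) (y := x)
    (fun z _ => (J_deriv ker_gk hr hcc hN hcN θ z).hasFDerivWithinAt)
    (fun z hz => norm_co_le _ _ fun i => by
      rw [abs_mul, abs_of_nonneg hθ]
      refine mul_le_mul_of_nonneg_left ?_ hθ
      refine (E1 (hc i) (hdc i) (hcN i) (hdN i) (hodd i) hθ z).trans ?_
      refine mul_le_mul_of_nonneg_left ?_ (by positivity)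
      simpa using hz)
    (convex_closedBall _ _) (by simp) (by simp)
  rw [Real.norm_eq_abs, sub_zero] at h
  refine h.trans (le_of_eq ?_)
  ring

theorem w1c : ContinuousOn (fun θ => Real.sin θ / Real.cos θ) II :=
  ContinuousOn.div (by fun_prop) (by fun_prop) fun θ hθ => (cos_pos_II hθ).ne'

theorem w0c : ContinuousOn (fun θ => Real.sin θ / Real.cos θ ^ 2) II :=
  ContinuousOn.div (by fun_prop) (by fun_prop) fun θ hθ => pow_ne_zero 2 (cos_pos_II hθ).ne'

/-- Data: an even function with its first and second derivatives. -/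
structure Dat (r : E n → ℝ) (c : Fin n → E n → ℝ) (d : Fin n → Fin n → E n → ℝ)
    (N : ℝ) : Prop where
  hr : ∀ y, HasFDerivAt r (co fun i => c i y) y
  hc : ∀ i y, HasFDerivAt (c i) (co fun j => d i j y) y
  hdc : ∀ i j, Continuous (d i j)
  hN : ∀ x, |r x| ≤ N
  hcN : ∀ i x, |c i x| ≤ N
  hdN : ∀ i j x, |d i j x| ≤ N
  hodd : ∀ i x, c i (-x) = -c i x
  hev : IsEv r

section
variable {r : E n → ℝ} {c : Fin n → E n → ℝ} {d : Fin n → Fin n → E n → ℝ} {N : ℝ}

theorem Dat.N0 (D : Dat r c d N) : 0 ≤ N := (abs_nonneg _).trans (D.hN 0)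

theorem Dat.cc (D : Dat r c d N) (i : Fin n) : Continuous (c i) :=
  continuous_iff_continuousAt.2 fun z => (D.hc i z).continuousAt

theorem Dat.rc (D : Dat r c d N) : Continuous r :=
  continuous_iff_continuousAt.2 fun z => (D.hr z).continuousAt

/-- Integrability at level one. -/
theorem Dat.int1 (D : Dat r c d N) (i : Fin n) (x : E n) :
    Integrable (fun θ => Real.sin θ / Real.cos θ * J gk (c i) θ x) μI := by
  refine integrable_of_bd (B := n * N * ‖x‖) (VV_meas w1c ker_gk (D.cc i) (D.hcN i) x)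
    fun θ hθ => ?_
  have hc := cos_pos_II hθ
  have h1 := E1 (D.hc i) (D.hdc i) (D.hcN i) (D.hdN i) (D.hodd i) hc.le x
  rw [abs_mul, abs_div, abs_of_pos hc]
  calc |Real.sin θ| / Real.cos θ * |J gk (c i) θ x|
      ≤ 1 / Real.cos θ * (n * (Real.cos θ * N) * ‖x‖) := by
        refine mul_le_mul ?_ h1 (abs_nonneg _) (by positivity)
        exact div_le_div_of_nonneg_right (Real.abs_sin_le_one θ) hc.le
    _ = n * N * ‖x‖ := by field_simp

/-- Integrability at level zero. -/
theorem Dat.int0 (D : Dat r c d N) (x : E n) :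
    Integrable (fun θ => Real.sin θ / Real.cos θ ^ 2 * (J gk r θ x - J gk r θ 0)) μI := by
  have hN0 := D.N0
  refine integrable_of_bd (B := n * (n * N * ‖x‖) * ‖x‖) (meas_of_contOn
    (w0c.mul ((J_contθ ker_gk D.rc D.hN x).sub (J_contθ ker_gk D.rc D.hN 0)).continuousOn))
    fun θ hθ => ?_
  have hc := cos_pos_II hθ
  have h1 := E0 D.hr D.hc D.hdc D.hN D.hcN D.hdN D.hodd hc.le x
  rw [abs_mul, abs_div, abs_of_pos (pow_pos hc 2)]
  calc |Real.sin θ| / Real.cos θ ^ 2 * |J gk r θ x - J gk r θ 0|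
      ≤ 1 / Real.cos θ ^ 2 * (n * (n * (Real.cos θ * N) * ‖x‖) * ‖x‖ * Real.cos θ) := by
        refine mul_le_mul ?_ h1 (abs_nonneg _) (by positivity)
        exact div_le_div_of_nonneg_right (Real.abs_sin_le_one θ) (pow_pos hc 2).le
    _ = n * (n * N * ‖x‖) * ‖x‖ := by field_simp

/-- The solution up to a constant. -/
noncomputable def U0 (r : E n → ℝ) (x : E n) : ℝ :=
  ∫ θ, Real.sin θ / Real.cos θ ^ 2 * (J gk r θ x - J gk r θ 0) ∂μI

theorem Dat.der0 (D : Dat r c d N) (x : E n) :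
    HasFDerivAt (U0 r) (co fun i => VV (fun θ => Real.sin θ / Real.cos θ) gk (c i) x) x := by
  have hN0 := D.N0
  refine hasFDerivAt_int (s := Metric.ball x 1) (bound := fun _ => n * N * (‖x‖ + 1))
    (F := fun x θ => Real.sin θ / Real.cos θ ^ 2 * (J gk r θ x - J gk r θ 0))
    (c := fun i x θ => Real.sin θ / Real.cos θ * J gk (c i) θ x)
    (Metric.ball_mem_nhds x one_pos)
    (fun y => (D.int0 y).aestronglyMeasurable) (D.int0 x)
    (fun i => (D.int1 i x).aestronglyMeasurable)
    (ae_II.mono fun θ hθ y hy i => ?_) (integrable_const _) (ae_II.mono fun θ hθ y _ => ?_)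
  · have hc := cos_pos_II hθ
    have h1 := E1 (D.hc i) (D.hdc i) (D.hcN i) (D.hdN i) (D.hodd i) hc.le y
    have h2 : ‖y‖ ≤ ‖x‖ + 1 := by
      have := mem_ball_iff_norm.1 hy
      calc ‖y‖ = ‖(y - x) + x‖ := by rw [sub_add_cancel]
        _ ≤ ‖y - x‖ + ‖x‖ := norm_add_le _ _
        _ ≤ _ := by linarith
    rw [abs_mul, abs_div, abs_of_pos hc]
    calc |Real.sin θ| / Real.cos θ * |J gk (c i) θ y|
        ≤ 1 / Real.cos θ * (n * (Real.cos θ * N) * (‖x‖ + 1)) := by
          refine mul_le_mul ?_ (h1.trans (mul_le_mul_of_nonneg_left h2 (by positivity)))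
            (abs_nonneg _) (by positivity)
          exact div_le_div_of_nonneg_right (Real.abs_sin_le_one θ) hc.le
      _ = n * N * (‖x‖ + 1) := by field_simp
  · have hc := cos_pos_II hθ
    have h := ((J_deriv ker_gk D.hr D.cc D.hN D.hcN θ y).sub_const
      (J gk r θ 0)).const_mul (Real.sin θ / Real.cos θ ^ 2)
    have e : (co fun i => Real.sin θ / Real.cos θ * J gk (c i) θ y) =
        (Real.sin θ / Real.cos θ ^ 2) • co fun i => Real.cos θ * J gk (c i) θ y := by
      ext v
      change _ = (Real.sin θ / Real.cos θ ^ 2) *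
        (co (fun i => Real.cos θ * J gk (c i) θ y) v)
      rw [co_apply, co_apply, Finset.mul_sum]
      exact Finset.sum_congr rfl fun i _ => by field_simp
    rw [e]
    exact h

theorem Dat.der1 (D : Dat r c d N) (i : Fin n) (x : E n) :
    HasFDerivAt (VV (fun θ => Real.sin θ / Real.cos θ) gk (c i))
      (co fun j => VV Real.sin gk (d i j) x) x :=
  VV_smooth ker_gk (D.hc i) (D.hdc i) (D.hcN i) (D.hdN i) w1c w2c
    (fun θ hθ => by
      have := (cos_pos_II hθ).ne'
      field_simp) w2b x (D.int1 i x)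

theorem Dat.ev (D : Dat r c d N) : IsEv (U0 r) := by
  intro x
  unfold U0
  have h : ∀ θ, J gk r θ (-x) = J gk r θ x := fun θ => J_even D.hev θ x
  simp only [h]

/-- The equation. -/
theorem Dat.eqn (D : Dat r c d N) (x : E n) :
    -(∑ i, VV Real.sin gk (d i i) x) +
      ∑ i, x i * VV (fun θ => Real.sin θ / Real.cos θ) gk (c i) x - U0 r x =
      r x - r 0 - ∑ i, VV Real.sin gk (d i i) 0 := by
  have hN0 := D.N0
  set f : ℝ → ℝ := fun θ => (J gk r θ x - J gk r θ 0) / Real.cos θ with hf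
  set g : ℝ → ℝ := fun θ => (∑ i, -(x i * (Real.sin θ / Real.cos θ * J gk (c i) θ x))) +
    (∑ i, Real.sin θ * J gk (d i i) θ x) - (∑ i, Real.sin θ * J gk (d i i) θ 0) +
    Real.sin θ / Real.cos θ ^ 2 * (J gk r θ x - J gk r θ 0) with hg
  have hder : ∀ θ ∈ Set.Ioo 0 (Real.pi / 2), HasDerivAt f (g θ) θ := by
    intro θ hθ
    have hs := sin_pos_II hθ
    have hc := cos_pos_II hθ
    have a1 := J_derivθ D.hr D.cc D.hN D.hcN θ x
    have a2 := J_derivθ D.hr D.cc D.hN D.hcN θ (0 : E n)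
    have a3 := (a1.sub a2).div (Real.hasDerivAt_cos θ) hc.ne'
    have p1 : ∀ (y : E n) (i : Fin n), J (fun z => z i * gk z) (c i) θ y =
        Real.sin θ * J gk (d i i) θ y := fun y i =>
      J_parts (D.hc i) (D.hdc i) (D.hcN i) (D.hdN i) hs hc y i
    have e : ((∑ i, (-Real.sin θ * x i * J gk (c i) θ x +
        Real.cos θ * J (fun z => z i * gk z) (c i) θ x) -
        ∑ i, (-Real.sin θ * (0 : E n) i * J gk (c i) θ 0 +
        Real.cos θ * J (fun z => z i * gk z) (c i) θ 0)) * Real.cos θ -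
        (J gk r θ x - J gk r θ 0) * -Real.sin θ) / Real.cos θ ^ 2 = g θ := by
      simp only [p1, PiLp.zero_apply, mul_zero, zero_mul, zero_add, Finset.sum_add_distrib, hg]
      have q1 : (∑ i, -Real.sin θ * x i * J gk (c i) θ x) * Real.cos θ / Real.cos θ ^ 2 =
          ∑ i, -(x i * (Real.sin θ / Real.cos θ * J gk (c i) θ x)) := by
        rw [Finset.sum_mul, Finset.sum_div]
        refine Finset.sum_congr rfl fun i _ => ?_
        field_simp
      have q2 : ∀ y : E n, (∑ i, Real.cos θ * (Real.sin θ * J gk (d i i) θ y)) *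
          Real.cos θ / Real.cos θ ^ 2 = ∑ i, Real.sin θ * J gk (d i i) θ y := by
        intro y
        rw [Finset.sum_mul, Finset.sum_div]
        refine Finset.sum_congr rfl fun i _ => ?_
        field_simp
      rw [← q1, ← q2 x, ← q2 0]
      ring
    rw [← e]
    exact a3
  have i1 : ∀ i, Integrable (fun θ => -(x i * (Real.sin θ / Real.cos θ * J gk (c i) θ x))) μI :=
    fun i => ((D.int1 i x).const_mul (x i)).neg
  have i2 : ∀ (y : E n) (i : Fin n), Integrable (fun θ => Real.sin θ * J gk (d i i) θ y) μI :=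
    fun y i => VV_int w2c ker_gk (D.hdc i i) (D.hdN i i) w2b y
  have s1 : Integrable (fun θ => ∑ i, -(x i * (Real.sin θ / Real.cos θ *
      J gk (c i) θ x))) μI := integrable_finsetSum _ fun i _ => i1 i
  have s2 : ∀ y : E n, Integrable (fun θ => ∑ i, Real.sin θ * J gk (d i i) θ y) μI :=
    fun y => integrable_finsetSum _ fun i _ => i2 y i
  have hgi : Integrable g μI := ((s1.add (s2 x)).sub (s2 0)).add (D.int0 x)
  have hgv : ∫ θ, g θ ∂μI = -(∑ i, x i * VV (fun θ => Real.sin θ / Real.cos θ) gk (c i) x) +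
      (∑ i, VV Real.sin gk (d i i) x) - (∑ i, VV Real.sin gk (d i i) 0) + U0 r x := by
    have r1 : Integrable (fun θ => (∑ i, -(x i * (Real.sin θ / Real.cos θ *
        J gk (c i) θ x))) + ∑ i, Real.sin θ * J gk (d i i) θ x) μI := s1.add (s2 x)
    have r2 : Integrable (fun θ => (∑ i, -(x i * (Real.sin θ / Real.cos θ *
        J gk (c i) θ x))) + (∑ i, Real.sin θ * J gk (d i i) θ x) -
        ∑ i, Real.sin θ * J gk (d i i) θ 0) μI := r1.sub (s2 0)
    rw [hg, integral_add r2 (D.int0 x), integral_sub r1 (s2 0), integral_add s1 (s2 x),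
      integral_finsetSum _ fun i _ => i1 i, integral_finsetSum _ fun i _ => i2 x i,
      integral_finsetSum _ fun i _ => i2 0 i]
    simp only [integral_neg, integral_const_mul, Finset.sum_neg_distrib]
    rfl
  have hpi : (0 : ℝ) < Real.pi / 2 := by positivity
  have hint : IntervalIntegrable g volume 0 (Real.pi / 2) := by
    rw [intervalIntegrable_iff_integrableOn_Ioc_of_le hpi.le,
      integrableOn_Ioc_iff_integrableOn_Ioo]
    exact hgi
  have hl0 : Tendsto f (𝓝[>] 0) (𝓝 (r x - r 0)) := by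
    have c1 : ContinuousAt f 0 := by
      refine ContinuousAt.div ?_ Real.continuous_cos.continuousAt (by simp)
      exact ((J_contθ ker_gk D.rc D.hN x).sub (J_contθ ker_gk D.rc D.hN 0)).continuousAt
    have v : f 0 = r x - r 0 := by
      simp [hf, J, integral_const_mul, integral_gk]
    rw [← v]
    exact c1.tendsto.mono_left nhdsWithin_le_nhds
  have hl1 : Tendsto f (𝓝[<] (Real.pi / 2)) (𝓝 0) := by
    have t1 : Tendsto (fun θ => n * (n * (Real.cos θ * N) * ‖x‖) * ‖x‖) (𝓝[<] (Real.pi / 2))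
        (𝓝 0) := by
      have : Continuous fun θ => n * (n * (Real.cos θ * N) * ‖x‖) * ‖x‖ := by fun_prop
      have h2 := (this.tendsto (Real.pi / 2)).mono_left
        (nhdsWithin_le_nhds (s := Set.Iio (Real.pi / 2)))
      simpa using h2
    refine squeeze_zero_norm' ?_ t1
    have : Set.Ioo 0 (Real.pi / 2) ∈ 𝓝[<] (Real.pi / 2) := Ioo_mem_nhdsLT hpi
    filter_upwards [this] with θ hθ
    have hc := cos_pos_II hθ
    rw [hf, Real.norm_eq_abs, abs_div, abs_of_pos hc, div_le_iff₀ hc]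
    exact E0 D.hr D.hc D.hdc D.hN D.hcN D.hdN D.hodd hc.le x
  have ftc := intervalIntegral.integral_eq_sub_of_hasDerivAt_of_tendsto hpi hder hint hl0 hl1
  rw [intervalIntegral.integral_of_le hpi.le, integral_Ioc_eq_integral_Ioo] at ftc
  have : ∫ θ, g θ ∂μI = 0 - (r x - r 0) := ftc
  rw [hgv] at this
  linarith

end

theorem tr2_one (M : Mt n) : tr2 (1 : Mt n) M = ∑ i, M i i := by
  unfold tr2
  refine Finset.sum_congr rfl fun i _ => ?_
  rw [Finset.sum_eq_single i]
  · simp
  · intro j _ hj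
    simp [Matrix.one_apply_ne hj.symm]
  · simp

/-- The row `ST_S0`. -/
theorem st_S0 : ST_S0 := by
  intro n
  obtain ⟨C, hC0, hC⟩ := HB3_VV n
  refine ⟨C, fun r N hev hr => ?_⟩
  have hN0 : 0 ≤ N := (abs_nonneg _).trans ((hr.2 [] (by simp)).1 0)
  have D : Dat r (fun i => pdl [i] r) (fun i j => pdl [j, i] r) N :=
    { hr := fun y => HB.deriv_pdl hr [] (by simp) y
      hc := fun i y => HB.deriv_pdl hr [i] (by simp) y
      hdc := fun i j => HB.cont_pdl hr [j, i] (by simp)
      hN := (hr.2 [] (by simp)).1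
      hcN := fun i => (hr.2 [i] (by simp)).1
      hdN := fun i j => (hr.2 [j, i] (by simp)).1
      hodd := fun i x => pd_odd hev (hr.1.differentiable (by norm_num)) i x
      hev := hev }
  set a : ℝ := -(r 0) - ∑ i, VV Real.sin gk (pdl [i, i] r) 0 with ha
  have hH : ∀ i j : Fin n, HB 3 (C * N) (VV Real.sin gk (pdl [j, i] r)) := fun i j =>
    hC (pdl [j, i] r) (fun k => pdl [k, j, i] r) N hN0
      (fun y => HB.deriv_pdl hr [j, i] (by simp) y)
      (fun k => HB.cont_pdl hr [k, j, i] (by simp)) (hr.2 [j, i] (by simp)).1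
      (fun k => hr.2 [k, j, i] (by simp))
  have d0 : ∀ x, HasFDerivAt (fun x => U0 r x + a)
      (co fun i => VV (fun θ => Real.sin θ / Real.cos θ) gk (pdl [i] r) x) x := fun x =>
    (D.der0 x).add_const a
  have d1 : ∀ (i : Fin n) (x : E n), HasFDerivAt
      (VV (fun θ => Real.sin θ / Real.cos θ) gk (pdl [i] r))
      (co fun j => VV Real.sin gk (pdl [j, i] r) x) x := fun i x => D.der1 i x
  have e1 : ∀ i, pd i (fun x => U0 r x + a) =
      VV (fun θ => Real.sin θ / Real.cos θ) gk (pdl [i] r) := fun i =>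
    funext fun x => pd_eq (d0 x) i
  have e2 : ∀ i j, pd j (VV (fun θ => Real.sin θ / Real.cos θ) gk (pdl [i] r)) =
      VV Real.sin gk (pdl [j, i] r) := fun i j => funext fun x => pd_eq (d1 i x) j
  refine ⟨fun x => U0 r x + a, fun x => ?_, ⟨?_, fun i j => ?_⟩, fun x => ?_⟩
  · simp only [D.ev x]
  · exact contDiff_succ_of (k := 4) d0 fun i => contDiff_succ_of (k := 3) (d1 i)
      fun j => (hH i j).1
  · rw [e1, e2]
    exact hH j i
  · have h := D.eqn x
    have hE : eul (fun x => U0 r x + a) x =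
        ∑ i, x i * VV (fun θ => Real.sin θ / Real.cos θ) gk (pdl [i] r) x := by
      unfold eul
      rw [(d0 x).fderiv, co_apply]
      exact Finset.sum_congr rfl fun i _ => mul_comm _ _
    have hT : tr2 (1 : Mt n) (hess (fun x => U0 r x + a) x) =
        ∑ i, VV Real.sin gk (pdl [i, i] r) x := by
      rw [tr2_one]
      refine Finset.sum_congr rfl fun i _ => ?_
      simp only [hess, Matrix.of_apply]
      rw [e1, e2]
    unfold AK LL
    rw [hE, hT]
    linarith

end CM87
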