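import Pool.Agent.Helper87.MM.Ops2

/-!
Project MM, row S0, part 5: integrals over the angle.
-/

open MeasureTheory Filter
open scoped Topology

namespace CM87

open CM

variable {n : ℕ}

/-- The interval of angles. -/
def II : Set ℝ := Set.Ioo 0 (Real.pi / 2)

/-- The measure on the interval of angles. -/
noncomputable def μI : Measure ℝ := volume.restrict II

theorem ae_II : ∀ᵐ θ ∂μI, θ ∈ II := by
  unfold μI
  exact ae_restrict_mem measurableSet_Ioo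

theorem sin_pos_II {θ : ℝ} (h : θ ∈ II) : 0 < Real.sin θ :=
  Real.sin_pos_of_pos_of_lt_pi h.1 (by linarith [h.2, Real.pi_pos])

theorem cos_pos_II {θ : ℝ} (h : θ ∈ II) : 0 < Real.cos θ :=
  Real.cos_pos_of_mem_Ioo ⟨by linarith [h.1, Real.pi_pos], h.2⟩

instance : IsFiniteMeasure μI := by
  unfold μI II
  infer_instance

theorem integrable_of_bd {f : ℝ → ℝ} {B : ℝ} (hf : AEStronglyMeasurable f μI)
    (hB : ∀ θ ∈ II, |f θ| ≤ B) : Integrable f μI :=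
  (integrable_const B).mono' hf (ae_II.mono fun θ hθ => hB θ hθ)

theorem meas_of_contOn {f : ℝ → ℝ} (hf : ContinuousOn f II) : AEStronglyMeasurable f μI := by
  unfold μI
  exact hf.aestronglyMeasurable measurableSet_Ioo

theorem inv_sqrt_sin_le {θ : ℝ} (h : θ ∈ II) :
    (Real.sqrt (Real.sin θ))⁻¹ ≤ 2 * θ ^ (-(1 / 2) : ℝ) := by
  have hp := Real.pi_pos
  have h1 : 2 / Real.pi * θ ≤ Real.sin θ := Real.mul_le_sin h.1.le h.2.le
  have h2 : θ / 4 ≤ Real.sin θ := by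
    refine le_trans ?_ h1
    have : (1 : ℝ) / 4 ≤ 2 / Real.pi := by
      rw [div_le_div_iff₀ (by norm_num) hp]
      linarith [Real.pi_le_four]
    have := mul_le_mul_of_nonneg_right this h.1.le
    linarith
  have h3 : Real.sqrt θ / 2 ≤ Real.sqrt (Real.sin θ) := by
    have : Real.sqrt (θ / 4) = Real.sqrt θ / 2 := by
      rw [Real.sqrt_div h.1.le]
      congr 1
      rw [show (4 : ℝ) = 2 ^ 2 by norm_num, Real.sqrt_sq (by norm_num)]
    rw [← this]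
    exact Real.sqrt_le_sqrt h2
  have h4 : 0 < Real.sqrt θ := Real.sqrt_pos.2 h.1
  have h5 : θ ^ (-(1 / 2) : ℝ) = (Real.sqrt θ)⁻¹ := by
    rw [Real.rpow_neg h.1.le, Real.sqrt_eq_rpow]
  rw [h5]
  calc (Real.sqrt (Real.sin θ))⁻¹ ≤ (Real.sqrt θ / 2)⁻¹ := by
        apply inv_anti₀ (by positivity) h3
    _ = _ := by rw [inv_div]; ring

theorem inv_sin_sqrt_le {θ : ℝ} (h : θ ∈ II) :
    (Real.sin θ * Real.sqrt (Real.sin θ))⁻¹ ≤ 8 * θ ^ (-(3 / 2) : ℝ) := by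
  have h1 := inv_sqrt_sin_le h
  have hs := sin_pos_II h
  have hq : 0 < Real.sqrt (Real.sin θ) := Real.sqrt_pos.2 hs
  have e1 : (Real.sin θ * Real.sqrt (Real.sin θ))⁻¹ = ((Real.sqrt (Real.sin θ))⁻¹) ^ 3 := by
    have : Real.sin θ = Real.sqrt (Real.sin θ) ^ 2 := (Real.sq_sqrt hs.le).symm
    rw [inv_pow]
    congr 1
    nth_rewrite 1 [this]
    ring
  have e2 : 8 * θ ^ (-(3 / 2) : ℝ) = (2 * θ ^ (-(1 / 2) : ℝ)) ^ 3 := by
    rw [mul_pow, ← Real.rpow_natCast, ← Real.rpow_natCast, ← Real.rpow_mul h.1.le]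
    norm_num
  rw [e1, e2]
  exact pow_le_pow_left₀ (by positivity) h1 3

theorem integrable_half : Integrable (fun θ : ℝ => 2 * θ ^ (-(1 / 2) : ℝ)) μI := by
  have h := intervalIntegral.intervalIntegrable_rpow' (a := 0) (b := Real.pi / 2)
    (by norm_num : (-1 : ℝ) < -(1 / 2))
  have h1 : IntegrableOn (fun θ : ℝ => θ ^ (-(1 / 2) : ℝ)) (Set.Ioc 0 (Real.pi / 2)) :=
    (intervalIntegrable_iff_integrableOn_Ioc_of_le (by positivity)).1 h
  exact (h1.mono_set Set.Ioo_subset_Ioc_self).const_mul 2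

/-- The constant of the half singular weight. -/
noncomputable def cH : ℝ := ∫ θ, 2 * θ ^ (-(1 / 2) : ℝ) ∂μI

theorem cH_nonneg : 0 ≤ cH := by
  unfold cH
  refine integral_nonneg_of_ae (ae_II.mono fun θ hθ => ?_)
  have := hθ.1
  simp only [Pi.zero_apply]
  positivity

theorem int_half {f : ℝ → ℝ} {A : ℝ} (hA : ∀ θ ∈ II, |f θ| ≤ A * (Real.sqrt (Real.sin θ))⁻¹)
    (hA0 : 0 ≤ A) : |∫ θ, f θ ∂μI| ≤ A * cH := by
  rw [← Real.norm_eq_abs, cH, ← integral_const_mul]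
  refine norm_integral_le_of_norm_le (integrable_half.const_mul A) (ae_II.mono fun θ hθ => ?_)
  exact (hA θ hθ).trans (mul_le_mul_of_nonneg_left (inv_sqrt_sin_le hθ) hA0)

/-- Splitting at `θ = d`. -/
theorem int_split {f : ℝ → ℝ} {A B d : ℝ} (hd : 0 < d) (hA0 : 0 ≤ A) (hB0 : 0 ≤ B)
    (hA : ∀ θ ∈ II, |f θ| ≤ A * (Real.sqrt (Real.sin θ))⁻¹)
    (hB : ∀ θ ∈ II, |f θ| ≤ B * d * (Real.sin θ * Real.sqrt (Real.sin θ))⁻¹) :
    |∫ θ, f θ ∂μI| ≤ (4 * A + 16 * B) * Real.sqrt d := by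
  set g : ℝ → ℝ := fun θ => if θ ≤ d then A * (2 * θ ^ (-(1 / 2) : ℝ)) else
    B * d * (8 * θ ^ (-(3 / 2) : ℝ)) with hg
  have i1 : IntegrableOn (fun θ : ℝ => A * (2 * θ ^ (-(1 / 2) : ℝ))) (Set.Ioc 0 d) := by
    have h := intervalIntegral.intervalIntegrable_rpow' (a := 0) (b := d)
      (by norm_num : (-1 : ℝ) < -(1 / 2))
    have h1 : IntegrableOn (fun θ : ℝ => θ ^ (-(1 / 2) : ℝ)) (Set.Ioc 0 d) :=
      (intervalIntegrable_iff_integrableOn_Ioc_of_le hd.le).1 h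
    exact (h1.const_mul 2).const_mul A
  have i2 : IntegrableOn (fun θ : ℝ => B * d * (8 * θ ^ (-(3 / 2) : ℝ))) (Set.Ioi d) := by
    have h1 := integrableOn_Ioi_rpow_of_lt (by norm_num : (-(3 / 2) : ℝ) < -1) hd
    exact (h1.const_mul 8).const_mul (B * d)
  have g1 : IntegrableOn g (Set.Ioc 0 d) := by
    refine i1.congr_fun (fun θ hθ => ?_) measurableSet_Ioc
    simp only [hg, if_pos hθ.2]
  have g2 : IntegrableOn g (Set.Ioi d) := by
    refine i2.congr_fun (fun θ hθ => ?_) measurableSet_Ioi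
    simp only [hg, if_neg (not_le.2 (Set.mem_Ioi.1 hθ))]
  have hU : Set.Ioc 0 d ∪ Set.Ioi d = Set.Ioi 0 := Set.Ioc_union_Ioi_eq_Ioi hd.le
  have g3 : IntegrableOn g (Set.Ioi 0) := hU ▸ g1.union g2
  have hgn : ∀ θ ∈ Set.Ioi (0 : ℝ), 0 ≤ g θ := by
    intro θ hθ
    have : 0 < θ := hθ
    simp only [hg]
    split_ifs <;> positivity
  have hsub : II ⊆ Set.Ioi (0 : ℝ) := fun θ hθ => hθ.1
  have s1 : |∫ θ, f θ ∂μI| ≤ ∫ θ, g θ ∂μI := by
    rw [← Real.norm_eq_abs]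
    refine norm_integral_le_of_norm_le (g3.mono_set hsub) (ae_II.mono fun θ hθ => ?_)
    simp only [hg]
    split_ifs
    · exact (hA θ hθ).trans (mul_le_mul_of_nonneg_left (inv_sqrt_sin_le hθ) hA0)
    · exact (hB θ hθ).trans (mul_le_mul_of_nonneg_left (inv_sin_sqrt_le hθ) (by positivity))
  have s2 : ∫ θ, g θ ∂μI ≤ ∫ θ in Set.Ioi 0, g θ := by
    unfold μI
    exact setIntegral_mono_set g3 (by
      refine (ae_restrict_mem measurableSet_Ioi).mono fun θ hθ => hgn θ hθ)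
      (Eventually.of_forall hsub)
  have s3 : ∫ θ in Set.Ioi 0, g θ = (∫ θ in Set.Ioc 0 d, g θ) + ∫ θ in Set.Ioi d, g θ := by
    rw [← hU]
    exact setIntegral_union (Set.disjoint_left.2 fun θ h1 h2 => not_le.2 h2 h1.2)
      measurableSet_Ioi g1 g2
  have s4 : ∫ θ in Set.Ioc 0 d, g θ = 4 * A * Real.sqrt d := by
    have e1 : ∫ θ in Set.Ioc 0 d, g θ = ∫ θ in Set.Ioc 0 d, A * (2 * θ ^ (-(1 / 2) : ℝ)) :=
      setIntegral_congr_fun measurableSet_Ioc fun θ hθ => by simp only [hg, if_pos hθ.2]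
    rw [e1, integral_const_mul, integral_const_mul, ← intervalIntegral.integral_of_le hd.le,
      integral_rpow (Or.inl (by norm_num)), Real.sqrt_eq_rpow]
    norm_num
    ring
  have s5 : ∫ θ in Set.Ioi d, g θ = 16 * B * Real.sqrt d := by
    have e1 : ∫ θ in Set.Ioi d, g θ = ∫ θ in Set.Ioi d, B * d * (8 * θ ^ (-(3 / 2) : ℝ)) :=
      setIntegral_congr_fun measurableSet_Ioi fun θ hθ => by
        simp only [hg, if_neg (not_le.2 (Set.mem_Ioi.1 hθ))]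
    rw [e1, integral_const_mul, integral_const_mul,
      integral_Ioi_rpow_of_lt (by norm_num : (-(3 / 2) : ℝ) < -1) hd]
    have e2 : d ^ (-(3 / 2) + 1 : ℝ) = (Real.sqrt d)⁻¹ := by
      rw [Real.sqrt_eq_rpow, ← Real.rpow_neg hd.le]
      norm_num
    rw [e2]
    have h4 : 0 < Real.sqrt d := Real.sqrt_pos.2 hd
    have h5 : d = Real.sqrt d * Real.sqrt d := (Real.mul_self_sqrt hd.le).symm
    have h6 : d * (Real.sqrt d)⁻¹ = Real.sqrt d := by
      nth_rewrite 1 [h5]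
      field_simp
    calc B * d * (8 * (-(Real.sqrt d)⁻¹ / (-(3 / 2) + 1)))
        = 16 * B * (d * (Real.sqrt d)⁻¹) := by ring
      _ = _ := by rw [h6]
  calc |∫ θ, f θ ∂μI| ≤ ∫ θ, g θ ∂μI := s1
    _ ≤ _ := s2
    _ = 4 * A * Real.sqrt d + 16 * B * Real.sqrt d := by rw [s3, s4, s5]
    _ = _ := by ring

end CM87
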