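import Pool.Agent.Helper44.CM.Defs

/-!
Project MM, row S0, part 1: linear functionals on `E n`, polynomial times Gaussian kernels.
-/

open MeasureTheory

namespace CM87

open CM

variable {n : ℕ}

/-- The basis vector. -/
noncomputable abbrev eb (i : Fin n) : E n := EuclideanSpace.single i (1 : ℝ)

/-- The linear functional with coefficients `c`. -/
noncomputable def co (c : Fin n → ℝ) : E n →L[ℝ] ℝ :=
  ∑ i, c i • (EuclideanSpace.proj i : E n →L[ℝ] ℝ)

theorem co_apply (c : Fin n → ℝ) (x : E n) : co c x = ∑ i, c i * x i := by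
  simp [co]

theorem co_single (c : Fin n → ℝ) (i : Fin n) : co c (eb i) = c i := by
  rw [co_apply]
  simp [eb, PiLp.single_apply]

theorem eq_co (L : E n →L[ℝ] ℝ) : L = co (fun i => L (eb i)) := by
  ext x
  rw [co_apply]
  have h : x = ∑ i, x i • eb i := by
    ext j
    simp [eb, Pi.single_apply]
  conv_lhs => rw [h]
  rw [map_sum]
  refine Finset.sum_congr rfl fun i _ => ?_
  rw [map_smul, smul_eq_mul, mul_comm]

theorem fderiv_eq_co (f : E n → ℝ) (x : E n) : fderiv ℝ f x = co (fun i => pd i f x) :=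
  eq_co _

theorem hasFDerivAt_co {f : E n → ℝ} {x : E n} (h : DifferentiableAt ℝ f x) :
    HasFDerivAt f (co (fun i => pd i f x)) x := by
  rw [← fderiv_eq_co]
  exact h.hasFDerivAt

theorem pd_eq {f : E n → ℝ} {x : E n} {c : Fin n → ℝ} (h : HasFDerivAt f (co c) x)
    (i : Fin n) : pd i f x = c i := by
  rw [pd, h.fderiv]
  exact co_single c i

theorem abs_coord_le (x : E n) (i : Fin n) : |x i| ≤ ‖x‖ := by
  have := PiLp.norm_apply_le x i
  simpa using this

theorem norm_co_le (c : Fin n → ℝ) (B : ℝ) (hB : ∀ i, |c i| ≤ B) : ‖co c‖ ≤ n * B := by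
  have hB0 : 0 ≤ (n : ℝ) * B := by
    rcases Nat.eq_zero_or_pos n with h | h
    · subst h; simp
    · exact mul_nonneg (Nat.cast_nonneg _) ((abs_nonneg _).trans (hB ⟨0, h⟩))
  refine ContinuousLinearMap.opNorm_le_bound _ hB0 fun x => ?_
  rw [co_apply, Real.norm_eq_abs]
  calc |∑ i, c i * x i| ≤ ∑ i, |c i * x i| := Finset.abs_sum_le_sum_abs _ _
    _ ≤ ∑ _i : Fin n, B * ‖x‖ := by
        refine Finset.sum_le_sum fun i _ => ?_
        rw [abs_mul]
        exact mul_le_mul (hB i) (abs_coord_le x i) (abs_nonneg _) ((abs_nonneg _).trans (hB i))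
    _ = n * B * ‖x‖ := by simp; ring

theorem continuous_co {X : Type*} [TopologicalSpace X] {c : Fin n → X → ℝ}
    (h : ∀ i, Continuous (c i)) : Continuous fun x => co (fun i => c i x) := by
  unfold co
  exact continuous_finsetSum _ fun i _ => (h i).smul continuous_const

theorem contDiff_co {k : ℕ} {c : Fin n → E n → ℝ}
    (h : ∀ i, ContDiff ℝ k (c i)) : ContDiff ℝ k fun x => co (fun i => c i x) := by
  unfold co
  exact ContDiff.sum fun i _ => (h i).smul contDiff_const

/-- From partial derivatives of class `C^k` to class `C^(k+1)`. -/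
theorem contDiff_succ_of {k : ℕ} {f : E n → ℝ} {c : Fin n → E n → ℝ}
    (hf : ∀ x, HasFDerivAt f (co (fun i => c i x)) x) (hc : ∀ i, ContDiff ℝ k (c i)) :
    ContDiff ℝ (k + 1 : ℕ) f := by
  have := (contDiff_succ_iff_hasFDerivAt (𝕜 := ℝ) (n := k) (f := f)).2
    ⟨fun x => co (fun i => c i x), contDiff_co hc, hf⟩
  exact_mod_cast this

theorem pd_contDiff {k : ℕ} {f : E n → ℝ} (hf : ContDiff ℝ (k + 1 : ℕ) f) (i : Fin n) :
    ContDiff ℝ k (pd i f) := by
  have h1 : ContDiff ℝ k (fderiv ℝ f) := by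
    apply hf.fderiv_right
    push_cast
    exact le_rfl
  exact h1.clm_apply contDiff_const

/-- Bounded partial derivatives give a Lipschitz bound. -/
theorem lip_of_pd {f : E n → ℝ} {c : Fin n → E n → ℝ}
    (hf : ∀ x, HasFDerivAt f (co (fun i => c i x)) x) {B : ℝ} (hc : ∀ i x, |c i x| ≤ B)
    (x y : E n) : |f x - f y| ≤ n * B * dist x y := by
  have := Convex.norm_image_sub_le_of_norm_hasFDerivWithin_le (𝕜 := ℝ) (f := f)
    (f' := fun x => co (fun i => c i x)) (C := n * B) (s := Set.univ) (x := y) (y := x)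
    (fun z _ => (hf z).hasFDerivWithinAt) (fun z _ => norm_co_le _ B fun i => hc i z)
    convex_univ (Set.mem_univ _) (Set.mem_univ _)
  rwa [Real.norm_eq_abs, ← dist_eq_norm] at this

/-- Bounded and Lipschitz implies Hoelder. -/
theorem H0_of_lip {f : E n → ℝ} {B L M : ℝ} (hB : ∀ x, |f x| ≤ B)
    (hL : ∀ x y, |f x - f y| ≤ L * dist x y) (hM1 : 2 * B ≤ M) (hM2 : L ≤ M) : H0 M f := by
  have hB0 : 0 ≤ B := (abs_nonneg _).trans (hB 0)
  have hM0 : 0 ≤ M := by linarith
  refine ⟨fun x => (hB x).trans (by linarith), fun x y => ?_⟩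
  rcases le_total (dist x y) 1 with h | h
  · have h1 : dist x y ≤ Real.sqrt (dist x y) := by
      have h0 : 0 ≤ dist x y := dist_nonneg
      calc dist x y = Real.sqrt (dist x y) * Real.sqrt (dist x y) := (Real.mul_self_sqrt h0).symm
        _ ≤ Real.sqrt (dist x y) * 1 := by
            refine mul_le_mul_of_nonneg_left ?_ (Real.sqrt_nonneg _)
            exact Real.sqrt_le_one.2 h
        _ = _ := mul_one _
    calc |f x - f y| ≤ L * dist x y := hL x y
      _ ≤ M * dist x y := by gcongr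
      _ ≤ M * Real.sqrt (dist x y) := by gcongr
  · have h1 : 1 ≤ Real.sqrt (dist x y) := by
      rw [Real.one_le_sqrt]; exact h
    calc |f x - f y| ≤ |f x| + |f y| := abs_sub _ _
      _ ≤ M * 1 := by linarith [hB x, hB y]
      _ ≤ M * Real.sqrt (dist x y) := by gcongr

end CM87
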