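import Pool.Agent.Helper87.MM.Bas

/-!
Project MM, row S0, part 2: kernels of the form polynomial times Gaussian.
-/

open MeasureTheory

namespace CM87

open CM

variable {n : ℕ}

/-- Polynomial functions on `E n`. -/
inductive Pol : (E n → ℝ) → Prop
  | const (c : ℝ) : Pol fun _ => c
  | coord (i : Fin n) : Pol fun z => z i
  | add {P Q : E n → ℝ} : Pol P → Pol Q → Pol fun z => P z + Q z
  | mul {P Q : E n → ℝ} : Pol P → Pol Q → Pol fun z => P z * Q z

theorem pol_diff {P : E n → ℝ} (h : Pol P) :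
    ∃ c : Fin n → E n → ℝ, (∀ i, Pol (c i)) ∧ ∀ z, HasFDerivAt P (co fun i => c i z) z := by
  induction h with
  | const c =>
      refine ⟨fun _ _ => 0, fun _ => Pol.const 0, fun z => ?_⟩
      have : (co fun _ : Fin n => (0 : ℝ)) = 0 := by
        ext x
        rw [co_apply]
        simp
      rw [this]
      exact hasFDerivAt_const c z
  | coord j =>
      refine ⟨fun i _ => if i = j then 1 else 0, fun i => Pol.const _, fun z => ?_⟩
      have : (co fun i : Fin n => if i = j then (1 : ℝ) else 0) =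
          (EuclideanSpace.proj j : E n →L[ℝ] ℝ) := by
        ext x
        rw [co_apply]
        simp
      rw [this]
      exact (EuclideanSpace.proj j : E n →L[ℝ] ℝ).hasFDerivAt
  | @add P Q hP hQ ihP ihQ =>
      obtain ⟨c, hc, hP'⟩ := ihP
      obtain ⟨d, hd, hQ'⟩ := ihQ
      refine ⟨fun i z => c i z + d i z, fun i => (hc i).add (hd i), fun z => ?_⟩
      have := (hP' z).add (hQ' z)
      have e : (co fun i => c i z + d i z) = co (fun i => c i z) + co (fun i => d i z) := by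
        ext x
        simp only [co_apply, _root_.add_apply, ← Finset.sum_add_distrib]
        exact Finset.sum_congr rfl fun i _ => by ring
      rw [e]
      exact this
  | @mul P Q hP hQ ihP ihQ =>
      obtain ⟨c, hc, hP'⟩ := ihP
      obtain ⟨d, hd, hQ'⟩ := ihQ
      refine ⟨fun i z => P z * d i z + Q z * c i z,
        fun i => (hP.mul (hd i)).add (hQ.mul (hc i)), fun z => ?_⟩
      have := (hP' z).mul (hQ' z)
      have e : (co fun i => P z * d i z + Q z * c i z) =
          P z • co (fun i => d i z) + Q z • co (fun i => c i z) := by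
        ext x
        simp only [co_apply, _root_.add_apply, _root_.smul_apply,
          smul_eq_mul, Finset.mul_sum, ← Finset.sum_add_distrib]
        exact Finset.sum_congr rfl fun i _ => by ring
      rw [e]
      exact this

theorem pol_bd {P : E n → ℝ} (h : Pol P) :
    ∃ (m : ℕ) (C : ℝ), 0 ≤ C ∧ ∀ z, |P z| ≤ C * (1 + ‖z‖) ^ m := by
  induction h with
  | const c => exact ⟨0, |c|, abs_nonneg _, fun z => by simp⟩
  | coord j =>
      exact ⟨1, 1, zero_le_one, fun z => by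
        have := abs_coord_le z j
        have := norm_nonneg z
        linarith [pow_one (1 + ‖z‖)]⟩
  | @add P Q hP hQ ihP ihQ =>
      obtain ⟨m, C, hC, h1⟩ := ihP
      obtain ⟨k, D, hD, h2⟩ := ihQ
      refine ⟨m + k, C + D, add_nonneg hC hD, fun z => ?_⟩
      have h0 : (1 : ℝ) ≤ 1 + ‖z‖ := by linarith [norm_nonneg z]
      have a1 : (1 + ‖z‖) ^ m ≤ (1 + ‖z‖) ^ (m + k) := pow_le_pow_right₀ h0 (by omega)
      have a2 : (1 + ‖z‖) ^ k ≤ (1 + ‖z‖) ^ (m + k) := pow_le_pow_right₀ h0 (by omega)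
      calc |P z + Q z| ≤ |P z| + |Q z| := abs_add_le _ _
        _ ≤ C * (1 + ‖z‖) ^ m + D * (1 + ‖z‖) ^ k := add_le_add (h1 z) (h2 z)
        _ ≤ C * (1 + ‖z‖) ^ (m + k) + D * (1 + ‖z‖) ^ (m + k) := by gcongr
        _ = _ := by ring
  | @mul P Q hP hQ ihP ihQ =>
      obtain ⟨m, C, hC, h1⟩ := ihP
      obtain ⟨k, D, hD, h2⟩ := ihQ
      refine ⟨m + k, C * D, mul_nonneg hC hD, fun z => ?_⟩
      rw [abs_mul]
      calc |P z| * |Q z| ≤ (C * (1 + ‖z‖) ^ m) * (D * (1 + ‖z‖) ^ k) :=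
            mul_le_mul (h1 z) (h2 z) (abs_nonneg _) (by positivity)
        _ = _ := by ring

/-- The normalising constant. -/
noncomputable def gZ (n : ℕ) : ℝ := ∫ w : E n, Real.exp (-(1 / 2) * ‖w‖ ^ 2)

/-- The standard Gaussian density. -/
noncomputable def gk (z : E n) : ℝ := Real.exp (-(1 / 2) * ‖z‖ ^ 2) / gZ n

theorem integrable_gauss {b : ℝ} (hb : 0 < b) :
    Integrable fun v : E n => Real.exp (-b * ‖v‖ ^ 2) := by
  have h := GaussianFourier.integrable_cexp_neg_mul_sq_norm_add (V := E n) (b := (b : ℂ))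
    (by simpa using hb) 0 0
  have h2 := h.norm
  refine h2.congr (Filter.Eventually.of_forall fun v => ?_)
  simp only [inner_zero_left, Complex.ofReal_zero, mul_zero, add_zero, Complex.norm_exp]
  congr 1
  have : (-(b : ℂ) * (‖v‖ : ℂ) ^ 2) = ((-b * ‖v‖ ^ 2 : ℝ) : ℂ) := by push_cast; ring
  rw [this, Complex.ofReal_re]

theorem gZ_pos : 0 < gZ n := by
  unfold gZ
  rw [GaussianFourier.integral_rexp_neg_mul_sq_norm (by norm_num : (0 : ℝ) < 1 / 2)]
  positivity

theorem gk_pos (z : E n) : 0 < gk z := div_pos (Real.exp_pos _) gZ_pos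

theorem gk_neg (z : E n) : gk (-z) = gk z := by simp [gk]

theorem integral_gk : ∫ z : E n, gk z = 1 := by
  unfold gk
  rw [integral_div]
  exact div_self gZ_pos.ne'

/-- Rapid decay. -/
def Dec (q : E n → ℝ) : Prop := ∃ C : ℝ, 0 ≤ C ∧ ∀ z, |q z| ≤ C * Real.exp (-(1 / 4) * ‖z‖ ^ 2)

theorem pow_mul_exp_le (m : ℕ) : ∃ C : ℝ, 0 ≤ C ∧ ∀ t : ℝ, 0 ≤ t →
    (1 + t) ^ m * Real.exp (-(1 / 2) * t ^ 2) ≤ C * Real.exp (-(1 / 4) * t ^ 2) := by
  refine ⟨Real.exp (m ^ 2), (Real.exp_pos _).le, fun t ht => ?_⟩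
  have h1 : (1 + t) ^ m ≤ Real.exp (m * t) := by
    have : 1 + t ≤ Real.exp t := by linarith [Real.add_one_le_exp t]
    calc (1 + t) ^ m ≤ Real.exp t ^ m := pow_le_pow_left₀ (by linarith) this m
      _ = _ := by rw [← Real.exp_nat_mul]
  calc (1 + t) ^ m * Real.exp (-(1 / 2) * t ^ 2)
      ≤ Real.exp (m * t) * Real.exp (-(1 / 2) * t ^ 2) := by gcongr
    _ = Real.exp (m * t + -(1 / 2) * t ^ 2) := by rw [Real.exp_add]
    _ ≤ Real.exp (m ^ 2 + -(1 / 4) * t ^ 2) := by
        apply Real.exp_le_exp.2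
        nlinarith [sq_nonneg ((m : ℝ) - t / 2)]
    _ = _ := by rw [Real.exp_add]

theorem dec_pol {P : E n → ℝ} (h : Pol P) : Dec fun z => P z * gk z := by
  obtain ⟨m, C, hC, h1⟩ := pol_bd h
  obtain ⟨D, hD, h2⟩ := pow_mul_exp_le m
  refine ⟨C * D / gZ n, by have := gZ_pos (n := n); positivity, fun z => ?_⟩
  have hZ := gZ_pos (n := n)
  rw [abs_mul, abs_of_pos (gk_pos z), gk]
  calc |P z| * (Real.exp (-(1 / 2) * ‖z‖ ^ 2) / gZ n)
      ≤ (C * (1 + ‖z‖) ^ m) * (Real.exp (-(1 / 2) * ‖z‖ ^ 2) / gZ n) := by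
        gcongr
        exact h1 z
    _ = C / gZ n * ((1 + ‖z‖) ^ m * Real.exp (-(1 / 2) * ‖z‖ ^ 2)) := by ring
    _ ≤ C / gZ n * (D * Real.exp (-(1 / 4) * ‖z‖ ^ 2)) :=
        mul_le_mul_of_nonneg_left (h2 _ (norm_nonneg z)) (by positivity)
    _ = _ := by ring

/-- A kernel: polynomial times Gaussian. -/
def Ker (q : E n → ℝ) : Prop := ∃ P, Pol P ∧ q = fun z => P z * gk z

theorem Ker.dec {q : E n → ℝ} (h : Ker q) : Dec q := by
  obtain ⟨P, hP, rfl⟩ := h
  exact dec_pol hP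

theorem ker_gk : Ker (gk : E n → ℝ) := ⟨fun _ => 1, Pol.const 1, by simp⟩

theorem gk_hasFDerivAt (z : E n) : HasFDerivAt gk (co fun i => -(z i * gk z)) z := by
  have h1 : HasFDerivAt (fun z : E n => ‖z‖ ^ 2) (2 • innerSL ℝ z) z := by
    exact (hasStrictFDerivAt_norm_sq z).hasFDerivAt
  have h2 := ((h1.const_mul (-(1 / 2) : ℝ)).exp).mul_const (gZ n)⁻¹
  have e : (co fun i => -(z i * gk z)) = (gZ n)⁻¹ • (Real.exp (-(1 / 2) * ‖z‖ ^ 2) •
      ((-(1 / 2) : ℝ) • (2 • innerSL ℝ z))) := by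
    ext x
    simp only [co_apply, gk, _root_.smul_apply, smul_eq_mul, nsmul_eq_mul,
      innerSL_apply_apply, PiLp.inner_apply, RCLike.inner_apply, conj_trivial]
    rw [show (∑ i, -(z i * (Real.exp (-(1 / 2) * ‖z‖ ^ 2) / gZ n)) * x i) =
      -(Real.exp (-(1 / 2) * ‖z‖ ^ 2) / gZ n) * ∑ i, x i * z i by
        rw [Finset.mul_sum]; exact Finset.sum_congr rfl fun i _ => by ring]
    simp
    ring
  rw [e]
  have : (gk : E n → ℝ) = fun z => Real.exp (-(1 / 2) * ‖z‖ ^ 2) * (gZ n)⁻¹ := by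
    funext z
    rw [gk, div_eq_mul_inv]
  rw [this]
  exact h2

/-- The derivatives of a kernel are kernels. -/
theorem Ker.diff {q : E n → ℝ} (h : Ker q) :
    ∃ c : Fin n → E n → ℝ, (∀ i, Ker (c i)) ∧ ∀ z, HasFDerivAt q (co fun i => -(c i z)) z := by
  obtain ⟨P, hP, rfl⟩ := h
  obtain ⟨d, hd, hP'⟩ := pol_diff hP
  refine ⟨fun i z => (P z * z i + -1 * d i z) * gk z, fun i =>
    ⟨fun z => P z * z i + -1 * d i z, (hP.mul (Pol.coord i)).add ((Pol.const (-1)).mul (hd i)),
      rfl⟩, fun z => ?_⟩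
  have := (hP' z).mul (gk_hasFDerivAt z)
  have e : (co fun i => -((P z * z i + -1 * d i z) * gk z)) =
      P z • co (fun i => -(z i * gk z)) + gk z • co (fun i => d i z) := by
    ext x
    simp only [co_apply, _root_.add_apply, _root_.smul_apply,
      smul_eq_mul, Finset.mul_sum, ← Finset.sum_add_distrib]
    exact Finset.sum_congr rfl fun i _ => by ring
  rw [e]
  exact this

theorem Ker.cont {q : E n → ℝ} (h : Ker q) : Continuous q := by
  obtain ⟨c, _, hc⟩ := h.diff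
  exact continuous_iff_continuousAt.2 fun z => (hc z).continuousAt

theorem Dec.integrable {q : E n → ℝ} (h : Dec q) (hq : Continuous q) : Integrable q := by
  obtain ⟨C, hC, h1⟩ := h
  have := (integrable_gauss (n := n) (by norm_num : (0 : ℝ) < 1 / 4)).const_mul C
  exact this.mono' hq.aestronglyMeasurable (Filter.Eventually.of_forall fun z => h1 z)

theorem Ker.integrable {q : E n → ℝ} (h : Ker q) : Integrable q := h.dec.integrable h.cont

theorem Ker.coord {q : E n → ℝ} (h : Ker q) (i : Fin n) : Ker fun z => z i * q z := by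
  obtain ⟨P, hP, rfl⟩ := h
  exact ⟨fun z => z i * P z, (Pol.coord i).mul hP, by funext z; ring⟩

end CM87
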