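import Pool.Agent.Helper87.MM.Ang

/-!
Project MM, row S0, part 6: weighted integrals over the angle of the operators `J`.
-/

open MeasureTheory Filter
open scoped Topology

namespace CM87

open CM

variable {n : ℕ}

/-- Weighted integral over the angle. -/
noncomputable def VV (w : ℝ → ℝ) (q G : E n → ℝ) (x : E n) : ℝ :=
  ∫ θ, w θ * J q G θ x ∂μI

theorem VV_meas {w : ℝ → ℝ} {q G : E n → ℝ} {N : ℝ} (hw : ContinuousOn w II) (hq : Ker q)
    (hG : Continuous G) (hN : ∀ x, |G x| ≤ N) (x : E n) :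
    AEStronglyMeasurable (fun θ => w θ * J q G θ x) μI :=
  meas_of_contOn (hw.mul (J_contθ hq hG hN x).continuousOn)

theorem VV_int {w : ℝ → ℝ} {q G : E n → ℝ} {N W : ℝ} (hw : ContinuousOn w II) (hq : Ker q)
    (hG : Continuous G) (hN : ∀ x, |G x| ≤ N) (hW : ∀ θ ∈ II, |w θ| ≤ W) (x : E n) :
    Integrable (fun θ => w θ * J q G θ x) μI := by
  refine integrable_of_bd (B := W * (N * ∫ z, |q z|)) (VV_meas hw hq hG hN x) fun θ hθ => ?_
  rw [abs_mul]
  exact mul_le_mul (hW θ hθ) (J_bd hq hN θ x) (abs_nonneg _) ((abs_nonneg _).trans (hW θ hθ))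

theorem μI_univ_le : μI.real Set.univ ≤ 2 := by
  unfold μI II
  rw [Measure.real, Measure.restrict_apply_univ, Real.volume_Ioo, ENNReal.toReal_ofReal]
  · linarith [Real.pi_le_four]
  · linarith [Real.pi_pos]

theorem VV_bd {w : ℝ → ℝ} {q G : E n → ℝ} {N W : ℝ} (hq : Ker q)
    (hN : ∀ x, |G x| ≤ N) (hW : ∀ θ ∈ II, |w θ| ≤ W) (hW0 : 0 ≤ W) (hN0 : 0 ≤ N) (x : E n) :
    |VV w q G x| ≤ 2 * (W * (N * ∫ z, |q z|)) := by
  have h0 : 0 ≤ W * (N * ∫ z, |q z|) :=
    mul_nonneg hW0 (mul_nonneg hN0 (integral_nonneg fun z => abs_nonneg _))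
  unfold VV
  rw [← Real.norm_eq_abs]
  refine (norm_integral_le_of_norm_le_const (C := W * (N * ∫ z, |q z|))
    (ae_II.mono fun θ hθ => ?_)).trans ?_
  · rw [norm_mul]
    exact mul_le_mul (hW θ hθ) (J_bd hq hN θ x) (norm_nonneg _) hW0
  · rw [mul_comm]
    exact mul_le_mul_of_nonneg_right μI_univ_le h0

/-- Derivative of a weighted integral, smooth data. -/
theorem VV_smooth {w w' : ℝ → ℝ} {q G : E n → ℝ} {c : Fin n → E n → ℝ} {N W : ℝ} (hq : Ker q)
    (hG : ∀ y, HasFDerivAt G (co fun i => c i y) y) (hcc : ∀ i, Continuous (c i))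
    (hN : ∀ x, |G x| ≤ N) (hcN : ∀ i x, |c i x| ≤ N) (hw : ContinuousOn w II)
    (hw' : ContinuousOn w' II) (hww : ∀ θ ∈ II, w' θ = w θ * Real.cos θ)
    (hW : ∀ θ ∈ II, |w' θ| ≤ W) (x : E n)
    (hint : Integrable (fun θ => w θ * J q G θ x) μI) :
    HasFDerivAt (VV w q G) (co fun i => VV w' q (c i) x) x := by
  have hGc : Continuous G := continuous_iff_continuousAt.2 fun z => (hG z).continuousAt
  refine hasFDerivAt_int (s := Set.univ) (bound := fun _ => W * (N * ∫ z, |q z|))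
    (F := fun x θ => w θ * J q G θ x) (c := fun i x θ => w' θ * J q (c i) θ x) univ_mem
    (fun y => VV_meas hw hq hGc hN y) hint (fun i => VV_meas hw' hq (hcc i) (hcN i) x)
    (ae_II.mono fun θ hθ y _ i => ?_) (integrable_const _)
    (ae_II.mono fun θ hθ y _ => ?_)
  · rw [abs_mul]
    exact mul_le_mul (hW θ hθ) (J_bd hq (hcN i) θ y) (abs_nonneg _)
      ((abs_nonneg _).trans (hW θ hθ))
  · have h := (J_deriv hq hG hcc hN hcN θ y).const_mul (w θ)
    have e : (co fun i => w' θ * J q (c i) θ y) =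
        w θ • co fun i => Real.cos θ * J q (c i) θ y := by
      ext v
      change _ = w θ * (co (fun i => Real.cos θ * J q (c i) θ y) v)
      rw [co_apply, co_apply, Finset.mul_sum]
      exact Finset.sum_congr rfl fun i _ => by rw [hww θ hθ]; ring
    rw [e]
    exact h

/-- Derivative of a weighted integral, derivative on the kernel. -/
theorem VV_ker {w w' : ℝ → ℝ} {q G : E n → ℝ} {c : Fin n → E n → ℝ} {N : ℝ} {b : ℝ → ℝ}
    (hq : Ker q) (hc : ∀ i, Ker (c i)) (hqd : ∀ z, HasFDerivAt q (co fun i => -(c i z)) z)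
    (hG : Continuous G) (hN : ∀ x, |G x| ≤ N) (hw : ContinuousOn w II)
    (hw' : ContinuousOn w' II)
    (hww : ∀ θ ∈ II, w' θ = w θ * (Real.cos θ / Real.sin θ))
    (hb : ∀ θ ∈ II, ∀ i y, |w' θ * J (c i) G θ y| ≤ b θ) (hbi : Integrable b μI) (x : E n)
    (hint : Integrable (fun θ => w θ * J q G θ x) μI) :
    HasFDerivAt (VV w q G) (co fun i => VV w' (c i) G x) x := by
  refine hasFDerivAt_int (s := Set.univ) (bound := b)
    (F := fun x θ => w θ * J q G θ x) (c := fun i x θ => w' θ * J (c i) G θ x) univ_mem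
    (fun y => VV_meas hw hq hG hN y) hint (fun i => VV_meas hw' (hc i) hG hN x)
    (ae_II.mono fun θ hθ y _ i => hb θ hθ i y) hbi (ae_II.mono fun θ hθ y _ => ?_)
  have h := (J_derivK hq hc hqd hG hN (sin_pos_II hθ) y).const_mul (w θ)
  have e : (co fun i => w' θ * J (c i) G θ y) =
      w θ • co fun i => Real.cos θ / Real.sin θ * J (c i) G θ y := by
    ext v
    change _ = w θ * (co (fun i => Real.cos θ / Real.sin θ * J (c i) G θ y) v)
    rw [co_apply, co_apply, Finset.mul_sum]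
    exact Finset.sum_congr rfl fun i _ => by rw [hww θ hθ]; ring
  rw [e]
  exact h

/-- All partial derivatives up to order three. -/
theorem HB3_of {f : E n → ℝ} {f1 : Fin n → E n → ℝ} {f2 : Fin n → Fin n → E n → ℝ}
    {f3 : Fin n → Fin n → Fin n → E n → ℝ} {M : ℝ}
    (h1 : ∀ x, HasFDerivAt f (co fun i => f1 i x) x)
    (h2 : ∀ i x, HasFDerivAt (f1 i) (co fun j => f2 i j x) x)
    (h3 : ∀ i j x, HasFDerivAt (f2 i j) (co fun k => f3 i j k x) x)
    (hc : ∀ i j k, Continuous (f3 i j k))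
    (b0 : H0 M f) (b1 : ∀ i, H0 M (f1 i)) (b2 : ∀ i j, H0 M (f2 i j))
    (b3 : ∀ i j k, H0 M (f3 i j k)) : HB 3 M f := by
  have c2 : ∀ i j, ContDiff ℝ (1 : ℕ) (f2 i j) := fun i j =>
    contDiff_succ_of (k := 0) (h3 i j) fun k => contDiff_zero.2 (hc i j k)
  have c1 : ∀ i, ContDiff ℝ (2 : ℕ) (f1 i) := fun i =>
    contDiff_succ_of (k := 1) (h2 i) fun j => c2 i j
  have c0 : ContDiff ℝ (3 : ℕ) f := contDiff_succ_of (k := 2) h1 c1
  refine ⟨c0, fun l hl => ?_⟩
  have e1 : ∀ i, pd i f = f1 i := fun i => funext fun x => pd_eq (h1 x) i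
  have e2 : ∀ i j, pd j (f1 i) = f2 i j := fun i j => funext fun x => pd_eq (h2 i x) j
  have e3 : ∀ i j k, pd k (f2 i j) = f3 i j k := fun i j k =>
    funext fun x => pd_eq (h3 i j x) k
  match l, hl with
  | [], _ => exact b0
  | [i], _ => simp only [pdl, e1]; exact b1 i
  | [j, i], _ => simp only [pdl, e1, e2]; exact b2 i j
  | [k, j, i], _ => simp only [pdl, e1, e2, e3]; exact b3 i j k
  | (_ :: _ :: _ :: _ :: _), hl => simp at hl; omega

end CM87
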