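import Pool.Agent.Helper87.MM.Ker

/-!
Project MM, row S0, part 3: the operators `J q G θ x = ∫ G (cos θ x + sin θ z) q z dz`.
-/

open MeasureTheory Filter
open scoped Topology

namespace CM87

open CM

variable {n : ℕ}

/-- Differentiation under the integral sign, in coordinates. -/
theorem hasFDerivAt_int {α : Type*} [MeasurableSpace α] {μ : Measure α} {F : E n → α → ℝ}
    {c : Fin n → E n → α → ℝ} {bound : α → ℝ} {x₀ : E n} {s : Set (E n)} (hs : s ∈ 𝓝 x₀)
    (hF_meas : ∀ x, AEStronglyMeasurable (F x) μ) (hF_int : Integrable (F x₀) μ)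
    (hc_meas : ∀ i, AEStronglyMeasurable (c i x₀) μ)
    (hb : ∀ᵐ a ∂μ, ∀ x ∈ s, ∀ i, |c i x a| ≤ bound a) (hbi : Integrable bound μ)
    (hd : ∀ᵐ a ∂μ, ∀ x ∈ s, HasFDerivAt (fun x => F x a) (co fun i => c i x a) x) :
    HasFDerivAt (fun x => ∫ a, F x a ∂μ) (co fun i => ∫ a, c i x₀ a ∂μ) x₀ := by
  have hx₀ : x₀ ∈ s := mem_of_mem_nhds hs
  have hm : AEStronglyMeasurable (fun a => co fun i => c i x₀ a) μ := by
    unfold co
    exact Finset.aestronglyMeasurable_fun_sum _ fun i _ => (hc_meas i).smul_const _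
  have h := hasFDerivAt_integral_of_dominated_of_fderiv_le (𝕜 := ℝ) (μ := μ)
    (F := F) (F' := fun x a => co fun i => c i x a) (bound := fun a => n * bound a) hs
    (Eventually.of_forall hF_meas) hF_int hm
    (hb.mono fun a ha x hx => norm_co_le _ _ (ha x hx)) (hbi.const_mul _) hd
  have hi : ∀ i, Integrable (c i x₀) μ := fun i =>
    hbi.mono' (hc_meas i) (hb.mono fun a ha => ha x₀ hx₀ i)
  have e : (∫ a, (co fun i => c i x₀ a) ∂μ) = co fun i => ∫ a, c i x₀ a ∂μ := by
    have hint : Integrable (fun a => co fun i => c i x₀ a) μ := by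
      unfold co
      exact integrable_finsetSum (f := fun i a => c i x₀ a •
        (EuclideanSpace.proj i : E n →L[ℝ] ℝ)) _ fun i _ => (hi i).smul_const _
    ext x
    rw [ContinuousLinearMap.integral_apply hint, co_apply]
    simp only [co_apply]
    rw [integral_finsetSum _ fun i _ => (hi i).mul_const _]
    exact Finset.sum_congr rfl fun i _ => integral_mul_const _ _
  rw [← e]
  exact h

/-- The operators. -/
noncomputable def J (q G : E n → ℝ) (θ : ℝ) (x : E n) : ℝ :=
  ∫ z, G (Real.cos θ • x + Real.sin θ • z) * q z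

theorem J_integrable {q G : E n → ℝ} {N : ℝ} (hq : Ker q) (hG : Continuous G)
    (hN : ∀ x, |G x| ≤ N) (θ : ℝ) (x : E n) :
    Integrable fun z => G (Real.cos θ • x + Real.sin θ • z) * q z := by
  have := hq.integrable.norm.const_mul N
  refine this.mono' ?_ (Eventually.of_forall fun z => ?_)
  · have h1 := hq.cont
    exact (by fun_prop : Continuous fun z =>
      G (Real.cos θ • x + Real.sin θ • z) * q z).aestronglyMeasurable
  · rw [norm_mul]
    exact mul_le_mul_of_nonneg_right (hN _) (norm_nonneg _)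

theorem J_bd {q G : E n → ℝ} {N : ℝ} (hq : Ker q)
    (hN : ∀ x, |G x| ≤ N) (θ : ℝ) (x : E n) : |J q G θ x| ≤ N * ∫ z, |q z| := by
  unfold J
  rw [← integral_const_mul, ← Real.norm_eq_abs]
  refine norm_integral_le_of_norm_le (hq.integrable.norm.const_mul N)
    (Eventually.of_forall fun z => ?_)
  rw [norm_mul]
  exact mul_le_mul_of_nonneg_right (hN _) (norm_nonneg _)

theorem J_cont {q G : E n → ℝ} {N : ℝ} (hq : Ker q) (hG : Continuous G)
    (hN : ∀ x, |G x| ≤ N) : Continuous fun p : ℝ × E n => J q G p.1 p.2 := by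
  unfold J
  refine continuous_of_dominated (bound := fun z => N * ‖q z‖) (fun p => ?_)
    (fun p => Eventually.of_forall fun z => ?_) (hq.integrable.norm.const_mul N)
    (Eventually.of_forall fun z => ?_)
  · have h1 := hq.cont
    exact (by fun_prop : Continuous fun z =>
      G (Real.cos p.1 • p.2 + Real.sin p.1 • z) * q z).aestronglyMeasurable
  · rw [norm_mul]
    exact mul_le_mul_of_nonneg_right (hN _) (norm_nonneg _)
  · fun_prop

theorem J_contθ {q G : E n → ℝ} {N : ℝ} (hq : Ker q) (hG : Continuous G)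
    (hN : ∀ x, |G x| ≤ N) (x : E n) : Continuous fun θ : ℝ => J q G θ x := by
  have h : Continuous fun θ : ℝ => ((θ, x) : ℝ × E n) := by fun_prop
  have h2 : Continuous ((fun p : ℝ × E n => J q G p.1 p.2) ∘ fun θ : ℝ => ((θ, x) : ℝ × E n)) :=
    (J_cont hq hG hN).comp h
  exact h2

theorem J_contx {q G : E n → ℝ} {N : ℝ} (hq : Ker q) (hG : Continuous G)
    (hN : ∀ x, |G x| ≤ N) (θ : ℝ) : Continuous (J q G θ) := by
  have h : Continuous fun x : E n => ((θ, x) : ℝ × E n) := by fun_prop
  have h2 : Continuous ((fun p : ℝ × E n => J q G p.1 p.2) ∘ fun x : E n => ((θ, x) : ℝ × E n)) :=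
    (J_cont hq hG hN).comp h
  exact h2

theorem comp_deriv {G : E n → ℝ} {c : Fin n → E n → ℝ}
    (hG : ∀ y, HasFDerivAt G (co fun i => c i y) y) (a : ℝ) (w : E n) (t : ℝ) (y : E n) :
    HasFDerivAt (fun y => G (a • y + w) * t) (co fun i => a * (c i (a • y + w) * t)) y := by
  have h1 : HasFDerivAt (fun y : E n => a • y + w) (a • ContinuousLinearMap.id ℝ (E n)) y :=
    ((hasFDerivAt_id y).const_smul a).add_const _
  have h2 : HasFDerivAt (fun y => G (a • y + w))
      ((co fun i => c i (a • y + w)).comp (a • ContinuousLinearMap.id ℝ (E n))) y :=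
    (hG (a • y + w)).comp y h1
  have h3 := h2.mul_const t
  have e2 : (co fun i => a * (c i (a • y + w) * t)) =
      t • (co fun i => c i (a • y + w)).comp (a • ContinuousLinearMap.id ℝ (E n)) := by
    ext v
    change _ = t * (co (fun i => c i (a • y + w)) (a • v))
    rw [co_apply, co_apply, Finset.mul_sum]
    refine Finset.sum_congr rfl fun i _ => ?_
    rw [PiLp.smul_apply, smul_eq_mul]
    ring
  rw [e2]
  exact h3

/-- Derivative falling on a smooth function. -/
theorem J_deriv {q G : E n → ℝ} {c : Fin n → E n → ℝ} {N : ℝ} (hq : Ker q)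
    (hG : ∀ y, HasFDerivAt G (co fun i => c i y) y) (hcc : ∀ i, Continuous (c i))
    (hN : ∀ x, |G x| ≤ N) (hcN : ∀ i x, |c i x| ≤ N) (θ : ℝ) (x : E n) :
    HasFDerivAt (J q G θ) (co fun i => Real.cos θ * J q (c i) θ x) x := by
  have hGc : Continuous G := continuous_iff_continuousAt.2 fun z => (hG z).continuousAt
  have e : (co fun i => Real.cos θ * J q (c i) θ x) = co fun i =>
      ∫ z, Real.cos θ * (c i (Real.cos θ • x + Real.sin θ • z) * q z) := by
    congr 1
    funext i
    rw [integral_const_mul, J]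
  have hb : ∀ (i : Fin n) (y z : E n),
      |Real.cos θ * (c i (Real.cos θ • y + Real.sin θ • z) * q z)| ≤ N * |q z| := by
    intro i y z
    rw [abs_mul, abs_mul]
    have h1 := Real.abs_cos_le_one θ
    have h2 := hcN i (Real.cos θ • y + Real.sin θ • z)
    have h3 : 0 ≤ N := (abs_nonneg _).trans h2
    calc |Real.cos θ| * (|c i (Real.cos θ • y + Real.sin θ • z)| * |q z|)
        ≤ 1 * (N * |q z|) := by gcongr
      _ = _ := one_mul _
  have main := hasFDerivAt_int (μ := volume) (x₀ := x) (s := Set.univ)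
    (bound := fun z => N * |q z|)
    (F := fun x z => G (Real.cos θ • x + Real.sin θ • z) * q z)
    (c := fun i x z => Real.cos θ * (c i (Real.cos θ • x + Real.sin θ • z) * q z))
    univ_mem (fun y => (J_integrable hq hGc hN θ y).aestronglyMeasurable)
    (J_integrable hq hGc hN θ x)
    (fun i => ((J_integrable hq (hcc i) (hcN i) θ x).const_mul _).aestronglyMeasurable)
    (Eventually.of_forall fun z y _ i => hb i y z) (hq.integrable.abs.const_mul N)
    (Eventually.of_forall fun z y _ => comp_deriv hG (Real.cos θ) (Real.sin θ • z) (q z) y)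
  rw [e]
  exact main

/-- Derivative falling on the kernel. -/
theorem J_derivK {q G : E n → ℝ} {c : Fin n → E n → ℝ} {N : ℝ} (hq : Ker q)
    (hc : ∀ i, Ker (c i)) (hqd : ∀ z, HasFDerivAt q (co fun i => -(c i z)) z)
    (hG : Continuous G) (hN : ∀ x, |G x| ≤ N) {θ : ℝ} (hθ : 0 < Real.sin θ) (x : E n) :
    HasFDerivAt (J q G θ) (co fun i => Real.cos θ / Real.sin θ * J (c i) G θ x) x := by
  set k := Real.cos θ / Real.sin θ with hk
  have hN0 : 0 ≤ N := (abs_nonneg _).trans (hN 0)
  have key : ∀ (r : E n → ℝ) (y : E n), J r G θ y = ∫ z, G (Real.sin θ • z) * r (z - k • y) := by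
    intro r y
    unfold J
    rw [← integral_sub_right_eq_self (fun z => G (Real.cos θ • y + Real.sin θ • z) * r z)
      (k • y)]
    refine integral_congr_ae (Eventually.of_forall fun z => ?_)
    have : Real.cos θ • y + Real.sin θ • (z - k • y) = Real.sin θ • z := by
      rw [smul_sub, smul_smul, hk, mul_div_cancel₀ _ hθ.ne']
      abel
    simp only [this]
  have hdec : ∀ r : E n → ℝ, Ker r → ∃ C : ℝ, 0 ≤ C ∧ ∀ y ∈ Metric.ball x 1, ∀ z,
      |G (Real.sin θ • z) * r (z - k • y)| ≤ C * Real.exp (-(1 / 8) * ‖z‖ ^ 2) := by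
    intro r hr
    obtain ⟨C, hC, h1⟩ := hr.dec
    refine ⟨N * (C * Real.exp ((|k| * (‖x‖ + 1)) ^ 2 / 4)), by positivity, fun y hy z => ?_⟩
    rw [abs_mul]
    have h2 : ‖z‖ ≤ ‖z - k • y‖ + |k| * (‖x‖ + 1) := by
      have a1 : ‖z‖ ≤ ‖z - k • y‖ + ‖k • y‖ := by
        calc ‖z‖ = ‖(z - k • y) + k • y‖ := by rw [sub_add_cancel]
          _ ≤ _ := norm_add_le _ _
      have a2 : ‖k • y‖ ≤ |k| * (‖x‖ + 1) := by
        rw [norm_smul, Real.norm_eq_abs]
        gcongr
        have := mem_ball_iff_norm.1 hy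
        calc ‖y‖ = ‖(y - x) + x‖ := by rw [sub_add_cancel]
          _ ≤ ‖y - x‖ + ‖x‖ := norm_add_le _ _
          _ ≤ _ := by linarith
      linarith
    have h3 : 0 ≤ ‖z - k • y‖ := norm_nonneg _
    have h4 : 0 ≤ |k| * (‖x‖ + 1) := by positivity
    calc |G (Real.sin θ • z)| * |r (z - k • y)|
        ≤ N * (C * Real.exp (-(1 / 4) * ‖z - k • y‖ ^ 2)) := by
          gcongr
          · exact hN _
          · exact h1 _
      _ ≤ N * (C * Real.exp ((|k| * (‖x‖ + 1)) ^ 2 / 4 + -(1 / 8) * ‖z‖ ^ 2)) := by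
          gcongr
          nlinarith [sq_nonneg (‖z - k • y‖ - |k| * (‖x‖ + 1)), norm_nonneg z,
            mul_self_le_mul_self (norm_nonneg z) h2]
      _ = _ := by rw [Real.exp_add]; ring
  have hb8 := integrable_gauss (n := n) (by norm_num : (0 : ℝ) < 1 / 8)
  have hci : ∀ i, ∃ C : ℝ, 0 ≤ C ∧ ∀ y ∈ Metric.ball x 1, ∀ z,
      |G (Real.sin θ • z) * (c i) (z - k • y)| ≤ C * Real.exp (-(1 / 8) * ‖z‖ ^ 2) :=
    fun i => hdec _ (hc i)
  choose Cc hCc0 hCc using hci
  have hmeas : ∀ (r : E n → ℝ) (y : E n), Ker r →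
      AEStronglyMeasurable (fun z => G (Real.sin θ • z) * r (z - k • y)) volume := by
    intro r y hr
    have := hr.cont
    exact (by fun_prop : Continuous fun z =>
      G (Real.sin θ • z) * r (z - k • y)).aestronglyMeasurable
  have hx1 : x ∈ Metric.ball x 1 := Metric.mem_ball_self one_pos
  have e : (co fun i => k * J (c i) G θ x) = co fun i =>
      ∫ z, k * (G (Real.sin θ • z) * (c i) (z - k • x)) := by
    congr 1
    funext i
    rw [integral_const_mul, key]
  rw [e, show J q G θ = fun y => ∫ z, G (Real.sin θ • z) * q (z - k • y) from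
    funext fun y => key q y]
  refine hasFDerivAt_int (s := Metric.ball x 1)
    (bound := fun z => |k| * ((∑ i, Cc i) * Real.exp (-(1 / 8) * ‖z‖ ^ 2)))
    (F := fun y z => G (Real.sin θ • z) * q (z - k • y))
    (c := fun i y z => k * (G (Real.sin θ • z) * (c i) (z - k • y)))
    (Metric.ball_mem_nhds x one_pos) (fun y => hmeas q y hq) ?_
    (fun i => (hmeas (c i) x (hc i)).const_mul k)
    (Eventually.of_forall fun z y hy i => ?_) ((hb8.const_mul _).const_mul _)
    (Eventually.of_forall fun z y _ => ?_)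
  · obtain ⟨C, hC, h1⟩ := hdec q hq
    exact (hb8.const_mul C).mono' (hmeas q x hq) (Eventually.of_forall fun z => h1 x hx1 z)
  · rw [abs_mul]
    refine mul_le_mul_of_nonneg_left ((hCc i y hy z).trans ?_) (abs_nonneg _)
    refine mul_le_mul_of_nonneg_right ?_ (Real.exp_pos _).le
    exact Finset.single_le_sum (fun j _ => hCc0 j) (Finset.mem_univ i)
  · have h1 : HasFDerivAt (fun y : E n => z - k • y)
        (-(k • ContinuousLinearMap.id ℝ (E n))) y :=
      ((hasFDerivAt_id y).const_smul k).const_sub _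
    have h2 := ((hqd (z - k • y)).comp y h1).const_mul (G (Real.sin θ • z))
    have e2 : (co fun i => k * (G (Real.sin θ • z) * (c i) (z - k • y))) =
        G (Real.sin θ • z) • (co fun i => -(c i (z - k • y))).comp
          (-(k • ContinuousLinearMap.id ℝ (E n))) := by
      ext w
      simp only [co_apply, _root_.smul_apply, ContinuousLinearMap.comp_apply, _root_.neg_apply,
        ContinuousLinearMap.id_apply, smul_eq_mul, PiLp.smul_apply, PiLp.neg_apply,
        Finset.mul_sum]
      exact Finset.sum_congr rfl fun i _ => by ring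
    rw [e2]
    exact h2

end CM87
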