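import Pool.Agent.Helper87.MM.Ops

/-!
Project MM, row S0, part 4: cancellation, Gaussian integration by parts, derivative in the angle.
-/

open MeasureTheory Filter
open scoped Topology

namespace CM87

open CM

variable {n : ℕ}

theorem co_inj {c d : Fin n → ℝ} (h : co c = co d) (i : Fin n) : c i = d i := by
  rw [← co_single c i, h, co_single]

/-- The derivative kernels have mean zero. -/
theorem ker_mean {q : E n → ℝ} {c : Fin n → E n → ℝ} (hq : Ker q) (hc : ∀ i, Ker (c i))
    (hqd : ∀ z, HasFDerivAt q (co fun i => -(c i z)) z) (i : Fin n) : ∫ z, c i z = 0 := by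
  have hs : 0 < Real.sin (Real.pi / 4) :=
    Real.sin_pos_of_pos_of_lt_pi (by positivity) (by linarith [Real.pi_pos])
  have hco : 0 < Real.cos (Real.pi / 4) :=
    Real.cos_pos_of_mem_Ioo ⟨by linarith [Real.pi_pos], by linarith [Real.pi_pos]⟩
  have h1 := J_derivK (G := fun _ => (1 : ℝ)) (N := 1) hq hc hqd continuous_const
    (fun _ => by simp) hs 0
  have h2 : J q (fun _ => (1 : ℝ)) (Real.pi / 4) = fun _ : E n => ∫ z, q z := by
    funext x
    simp [J]
  rw [h2] at h1
  have h3 := h1.unique (hasFDerivAt_const (∫ z, q z) (0 : E n))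
  have h4 : (co fun i => Real.cos (Real.pi / 4) / Real.sin (Real.pi / 4) *
      J (c i) (fun _ => (1 : ℝ)) (Real.pi / 4) 0) (eb i) = 0 := by
    rw [h3]; simp
  rw [co_single] at h4
  have h5 : J (c i) (fun _ => (1 : ℝ)) (Real.pi / 4) 0 = 0 := by
    rcases mul_eq_zero.1 h4 with h | h
    · exact absurd h (div_pos hco hs).ne'
    · exact h
  simpa [J] using h5

theorem sqrt_norm_le (z : E n) : Real.sqrt ‖z‖ ≤ 1 + ∑ i, |z i| := by
  have h1 : Real.sqrt ‖z‖ ≤ 1 + ‖z‖ := by
    have h0 := norm_nonneg z
    rw [Real.sqrt_le_left (by linarith)]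
    nlinarith
  have h2 : ‖z‖ ≤ ∑ i, |z i| := by
    have h : z = ∑ i, z i • eb i := by
      ext j
      simp [eb, Pi.single_apply]
    calc ‖z‖ = ‖∑ i, z i • eb i‖ := by rw [← h]
      _ ≤ ∑ i, ‖z i • eb i‖ := norm_sum_le _ _
      _ = ∑ i, |z i| := by
        refine Finset.sum_congr rfl fun i _ => ?_
        rw [norm_smul]
        simp [eb]
  linarith

theorem sqrt_integrable {q : E n → ℝ} (hq : Ker q) :
    Integrable fun z => Real.sqrt ‖z‖ * |q z| := by
  have h1 : Integrable fun z => |q z| + ∑ i, |z i * q z| :=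
    hq.integrable.abs.add (integrable_finsetSum (f := fun i z => |z i * q z|) _
      fun i _ => (hq.coord i).integrable.abs)
  have hqc := hq.cont
  refine h1.mono' (by
    exact (by fun_prop : Continuous fun z =>
      Real.sqrt ‖z‖ * |q z|).aestronglyMeasurable) (Eventually.of_forall fun z => ?_)
  rw [Real.norm_eq_abs, abs_mul, abs_abs, abs_of_nonneg (Real.sqrt_nonneg _)]
  calc Real.sqrt ‖z‖ * |q z| ≤ (1 + ∑ i, |z i|) * |q z| :=
        mul_le_mul_of_nonneg_right (sqrt_norm_le z) (abs_nonneg _)
    _ = |q z| + ∑ i, |z i * q z| := by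
        rw [add_mul, one_mul, Finset.sum_mul]
        congr 1
        exact Finset.sum_congr rfl fun i _ => (abs_mul _ _).symm

/-- Cancellation: mean zero kernels gain `sqrt (sin θ)`. -/
theorem J_hoelder {q G : E n → ℝ} {N H : ℝ} (hq : Ker q) (h0 : ∫ z, q z = 0)
    (hG : Continuous G) (hN : ∀ x, |G x| ≤ N)
    (hH : ∀ x y, |G x - G y| ≤ H * Real.sqrt (dist x y)) {θ : ℝ} (hθ : 0 ≤ Real.sin θ)
    (x : E n) : |J q G θ x| ≤ H * Real.sqrt (Real.sin θ) * ∫ z, Real.sqrt ‖z‖ * |q z| := by
  have e : J q G θ x = ∫ z, (G (Real.cos θ • x + Real.sin θ • z) - G (Real.cos θ • x)) * q z := by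
    simp only [sub_mul]
    rw [integral_sub (J_integrable hq hG hN θ x) (hq.integrable.const_mul _),
      integral_const_mul, h0, mul_zero, sub_zero, J]
  rw [e, ← integral_const_mul, ← Real.norm_eq_abs]
  refine norm_integral_le_of_norm_le ((sqrt_integrable hq).const_mul _)
    (Eventually.of_forall fun z => ?_)
  rw [Real.norm_eq_abs, abs_mul]
  have h1 := hH (Real.cos θ • x + Real.sin θ • z) (Real.cos θ • x)
  have h2 : dist (Real.cos θ • x + Real.sin θ • z) (Real.cos θ • x) = Real.sin θ * ‖z‖ := by
    rw [dist_eq_norm, add_sub_cancel_left, norm_smul, Real.norm_eq_abs, abs_of_nonneg hθ]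
  rw [h2, Real.sqrt_mul hθ] at h1
  calc |G (Real.cos θ • x + Real.sin θ • z) - G (Real.cos θ • x)| * |q z|
      ≤ (H * (Real.sqrt (Real.sin θ) * Real.sqrt ‖z‖)) * |q z| :=
        mul_le_mul_of_nonneg_right h1 (abs_nonneg _)
    _ = _ := by ring

/-- The first derivative kernels of the Gaussian. -/
theorem ker_g1 (i : Fin n) : Ker fun z : E n => z i * gk z := ker_gk.coord i

/-- Gaussian integration by parts. -/
theorem J_parts {G : E n → ℝ} {c : Fin n → E n → ℝ} {N : ℝ}
    (hG : ∀ y, HasFDerivAt G (co fun i => c i y) y) (hcc : ∀ i, Continuous (c i))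
    (hN : ∀ x, |G x| ≤ N) (hcN : ∀ i x, |c i x| ≤ N) {θ : ℝ} (hθ : 0 < Real.sin θ)
    (hθ' : 0 < Real.cos θ) (x : E n) (i : Fin n) :
    J (fun z => z i * gk z) G θ x = Real.sin θ * J gk (c i) θ x := by
  have hGc : Continuous G := continuous_iff_continuousAt.2 fun z => (hG z).continuousAt
  have h1 := J_deriv ker_gk hG hcc hN hcN θ x
  have h2 := J_derivK ker_gk (fun i => ker_g1 i) gk_hasFDerivAt hGc hN hθ x
  have h3 := co_inj (h2.unique h1) i
  simp only at h3
  have h4 : Real.cos θ * (J (fun z => z i * gk z) G θ x) =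
      Real.cos θ * (Real.sin θ * J gk (c i) θ x) := by
    calc Real.cos θ * (J (fun z => z i * gk z) G θ x) =
        Real.sin θ * (Real.cos θ / Real.sin θ * J (fun z => z i * gk z) G θ x) := by
          field_simp
      _ = _ := by rw [h3]; ring
  exact mul_left_cancel₀ hθ'.ne' h4

/-- Derivative in the angle. -/
theorem J_derivθ {G : E n → ℝ} {c : Fin n → E n → ℝ} {N : ℝ}
    (hG : ∀ y, HasFDerivAt G (co fun i => c i y) y) (hcc : ∀ i, Continuous (c i))
    (hN : ∀ x, |G x| ≤ N) (hcN : ∀ i x, |c i x| ≤ N) (θ : ℝ) (x : E n) :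
    HasDerivAt (fun t => J gk G t x) (∑ i, (-Real.sin θ * x i * J gk (c i) θ x +
      Real.cos θ * J (fun z => z i * gk z) (c i) θ x)) θ := by
  have hGc : Continuous G := continuous_iff_continuousAt.2 fun z => (hG z).continuousAt
  have hgk : Continuous (gk : E n → ℝ) := ker_gk.cont
  have hN0 : 0 ≤ N := (abs_nonneg _).trans (hN 0)
  have hb : ∀ (t : ℝ) (z : E n), |(∑ i, c i (Real.cos t • x + Real.sin t • z) *
      (-Real.sin t * x i + Real.cos t * z i)) * gk z| ≤
      ∑ i, (N * |x i| * |gk z| + N * |z i * gk z|) := by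
    intro t z
    rw [abs_mul]
    calc |∑ i, c i (Real.cos t • x + Real.sin t • z) *
        (-Real.sin t * x i + Real.cos t * z i)| * |gk z|
        ≤ (∑ i, N * (|x i| + |z i|)) * |gk z| := by
          refine mul_le_mul_of_nonneg_right ((Finset.abs_sum_le_sum_abs _ _).trans
            (Finset.sum_le_sum fun i _ => ?_)) (abs_nonneg _)
          rw [abs_mul]
          refine mul_le_mul (hcN i _) ?_ (abs_nonneg _) hN0
          refine (abs_add_le _ _).trans (add_le_add ?_ ?_)
          · rw [abs_mul, abs_neg]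
            exact mul_le_of_le_one_left (abs_nonneg _) (Real.abs_sin_le_one t)
          · rw [abs_mul]
            exact mul_le_of_le_one_left (abs_nonneg _) (Real.abs_cos_le_one t)
      _ = _ := by
          rw [Finset.sum_mul]
          exact Finset.sum_congr rfl fun i _ => by rw [abs_mul]; ring
  have hmeas : AEStronglyMeasurable (fun z => (∑ i, c i (Real.cos θ • x + Real.sin θ • z) *
      (-Real.sin θ * x i + Real.cos θ * z i)) * gk z) volume := by
    exact (by fun_prop : Continuous fun z => (∑ i, c i (Real.cos θ • x + Real.sin θ • z) *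
      (-Real.sin θ * x i + Real.cos θ * z i)) * gk z).aestronglyMeasurable
  have main := (hasDerivAt_integral_of_dominated_loc_of_deriv_le (𝕜 := ℝ) (μ := volume)
    (x₀ := θ) (s := Set.univ)
    (F := fun t z => G (Real.cos t • x + Real.sin t • z) * gk z)
    (F' := fun t z => (∑ i, c i (Real.cos t • x + Real.sin t • z) *
      (-Real.sin t * x i + Real.cos t * z i)) * gk z)
    (bound := fun z => ∑ i, (N * |x i| * |gk z| + N * |z i * gk z|)) univ_mem
    (Eventually.of_forall fun t => (J_integrable ker_gk hGc hN t x).aestronglyMeasurable)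
    (J_integrable ker_gk hGc hN θ x) hmeas
    (Eventually.of_forall fun z t _ => hb t z)
    (integrable_finsetSum _ fun i _ => (ker_gk.integrable.abs.const_mul _).add
      ((ker_g1 i).integrable.abs.const_mul _))
    (Eventually.of_forall fun z t _ => by
      have h1 : HasDerivAt (fun t : ℝ => Real.cos t • x + Real.sin t • z)
          ((-Real.sin t) • x + Real.cos t • z) t :=
        ((Real.hasDerivAt_cos t).smul_const x).add ((Real.hasDerivAt_sin t).smul_const z)
      have h2 := ((hG (Real.cos t • x + Real.sin t • z)).comp_hasDerivAt t h1).mul_const (gk z)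
      have e : (co fun i => c i (Real.cos t • x + Real.sin t • z))
          ((-Real.sin t) • x + Real.cos t • z) = ∑ i, c i (Real.cos t • x + Real.sin t • z) *
          (-Real.sin t * x i + Real.cos t * z i) := by
        rw [co_apply]
        refine Finset.sum_congr rfl fun i _ => ?_
        simp
      rw [e] at h2
      exact h2)).2
  have e : (∫ z, (∑ i, c i (Real.cos θ • x + Real.sin θ • z) *
      (-Real.sin θ * x i + Real.cos θ * z i)) * gk z) =
      ∑ i, (-Real.sin θ * x i * J gk (c i) θ x +
      Real.cos θ * J (fun z => z i * gk z) (c i) θ x) := by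
    have e1 : ∀ z, (∑ i, c i (Real.cos θ • x + Real.sin θ • z) *
      (-Real.sin θ * x i + Real.cos θ * z i)) * gk z =
      ∑ i, (-Real.sin θ * x i * (c i (Real.cos θ • x + Real.sin θ • z) * gk z) +
        Real.cos θ * (c i (Real.cos θ • x + Real.sin θ • z) * (z i * gk z))) := by
      intro z
      rw [Finset.sum_mul]
      exact Finset.sum_congr rfl fun i _ => by ring
    have i1 : ∀ i, Integrable (fun z => -Real.sin θ * x i *
        (c i (Real.cos θ • x + Real.sin θ • z) * gk z)) := fun i =>
      (J_integrable ker_gk (hcc i) (hcN i) θ x).const_mul _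
    have i2 : ∀ i, Integrable (fun z => Real.cos θ *
        (c i (Real.cos θ • x + Real.sin θ • z) * (z i * gk z))) := fun i =>
      (J_integrable (ker_g1 i) (hcc i) (hcN i) θ x).const_mul _
    have i3 : ∀ i, Integrable (fun z => -Real.sin θ * x i *
        (c i (Real.cos θ • x + Real.sin θ • z) * gk z) + Real.cos θ *
        (c i (Real.cos θ • x + Real.sin θ • z) * (z i * gk z))) := fun i => (i1 i).add (i2 i)
    simp only [e1]
    rw [integral_finsetSum _ fun i _ => i3 i]
    refine Finset.sum_congr rfl fun i _ => ?_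
    rw [integral_add (i1 i) (i2 i), integral_const_mul, integral_const_mul]
    rfl
  rw [← e]
  exact main

end CM87
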