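import Pool.Agent.Helper87.MM.Lev

/-!
Project MM, row S0, part 7: the resolvent gains two derivatives with Hoelder bounds.
-/

open MeasureTheory Filter
open scoped Topology

namespace CM87

open CM

variable {n : ℕ}

theorem hoelder_bd {q G : E n → ℝ} {N : ℝ} (hq : Ker q) (h0 : ∫ z, q z = 0)
    (hG : Continuous G) (hN : H0 N G) {θ : ℝ} (hθ : θ ∈ II) (x : E n) :
    |J q G θ x| ≤ N * Real.sqrt (Real.sin θ) * ∫ z, Real.sqrt ‖z‖ * |q z| :=
  J_hoelder hq h0 hG hN.1 hN.2 (sin_pos_II hθ).le x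

theorem sqrt_div_sin {s : ℝ} (hs : 0 < s) : Real.sqrt s / s = (Real.sqrt s)⁻¹ := by
  have h : s = Real.sqrt s * Real.sqrt s := (Real.mul_self_sqrt hs.le).symm
  have h2 := Real.sqrt_pos.2 hs
  rw [div_eq_iff hs.ne']
  nth_rewrite 3 [h]
  field_simp

/-- The table of kernels of order two and three. -/
structure KT (q2 : Fin n → Fin n → E n → ℝ) (q3 : Fin n → Fin n → Fin n → E n → ℝ)
    (S : ℝ) : Prop where
  k2 : ∀ i j, Ker (q2 i j)
  d2 : ∀ i z, HasFDerivAt (fun z : E n => z i * gk z) (co fun j => -(q2 i j z)) z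
  k3 : ∀ i j k, Ker (q3 i j k)
  d3 : ∀ i j z, HasFDerivAt (q2 i j) (co fun k => -(q3 i j k z)) z
  S0 : 0 ≤ S
  S1 : ∀ i : Fin n, (∫ z : E n, |z i * gk z|) ≤ S
  S2 : ∀ i j, (∫ z, Real.sqrt ‖z‖ * |q2 i j z|) ≤ S
  S3 : ∀ i j k, (∫ z, Real.sqrt ‖z‖ * |q3 i j k z|) ≤ S

theorem exists_KT (n : ℕ) : ∃ (q2 : Fin n → Fin n → E n → ℝ)
    (q3 : Fin n → Fin n → Fin n → E n → ℝ) (S : ℝ), KT q2 q3 S := by
  have hk2 : ∀ i : Fin n, ∃ d : Fin n → E n → ℝ, (∀ j, Ker (d j)) ∧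
      ∀ z, HasFDerivAt (fun z : E n => z i * gk z) (co fun j => -(d j z)) z :=
    fun i => (ker_g1 i).diff
  choose q2 hq2 hq2d using hk2
  have hk3 : ∀ i j : Fin n, ∃ d : Fin n → E n → ℝ, (∀ k, Ker (d k)) ∧
      ∀ z, HasFDerivAt (q2 i j) (co fun k => -(d k z)) z := fun i j => (hq2 i j).diff
  choose q3 hq3 hq3d using hk3
  have b1 : ∃ S : ℝ, ∀ i : Fin n, (∫ z : E n, |z i * gk z|) ≤ S := by
    obtain ⟨S, hS⟩ := (Set.finite_range fun i : Fin n => ∫ z : E n, |z i * gk z|).bddAbove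
    exact ⟨S, fun i => hS ⟨i, rfl⟩⟩
  have b2 : ∃ S : ℝ, ∀ i j, (∫ z, Real.sqrt ‖z‖ * |q2 i j z|) ≤ S := by
    obtain ⟨S, hS⟩ := (Set.finite_range fun p : Fin n × Fin n =>
      ∫ z, Real.sqrt ‖z‖ * |q2 p.1 p.2 z|).bddAbove
    exact ⟨S, fun i j => hS ⟨(i, j), rfl⟩⟩
  have b3 : ∃ S : ℝ, ∀ i j k, (∫ z, Real.sqrt ‖z‖ * |q3 i j k z|) ≤ S := by
    obtain ⟨S, hS⟩ := (Set.finite_range fun p : Fin n × Fin n × Fin n =>
      ∫ z, Real.sqrt ‖z‖ * |q3 p.1 p.2.1 p.2.2 z|).bddAbove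
    exact ⟨S, fun i j k => hS ⟨(i, j, k), rfl⟩⟩
  obtain ⟨A, hA⟩ := b1
  obtain ⟨B, hB⟩ := b2
  obtain ⟨D, hD⟩ := b3
  refine ⟨q2, q3, |A| + |B| + |D|, hq2, hq2d, hq3, hq3d, by positivity, fun i => ?_,
    fun i j => ?_, fun i j k => ?_⟩
  · linarith [hA i, le_abs_self A, abs_nonneg B, abs_nonneg D]
  · linarith [hB i j, le_abs_self B, abs_nonneg A, abs_nonneg D]
  · linarith [hD i j k, le_abs_self D, abs_nonneg B, abs_nonneg A]

theorem w2c : ContinuousOn Real.sin II := Real.continuous_sin.continuousOn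

theorem w3c : ContinuousOn (fun θ => Real.sin θ * Real.cos θ) II := by fun_prop

theorem w4c : ContinuousOn (fun θ => Real.cos θ ^ 2) II := by fun_prop

theorem w5c : ContinuousOn (fun θ => Real.cos θ ^ 3 / Real.sin θ) II :=
  ContinuousOn.div (by fun_prop) (by fun_prop) fun θ hθ => (sin_pos_II hθ).ne'

theorem w2b : ∀ θ ∈ II, |Real.sin θ| ≤ 1 := fun θ _ => Real.abs_sin_le_one θ

theorem w3b : ∀ θ ∈ II, |Real.sin θ * Real.cos θ| ≤ 1 := fun θ _ => by
  rw [abs_mul]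
  exact mul_le_one₀ (Real.abs_sin_le_one θ) (abs_nonneg _) (Real.abs_cos_le_one θ)

theorem w4b : ∀ θ ∈ II, |Real.cos θ ^ 2| ≤ 1 := fun θ _ => by
  rw [abs_pow]
  exact pow_le_one₀ (abs_nonneg _) (Real.abs_cos_le_one θ)

theorem w5b : ∀ θ ∈ II, |Real.cos θ ^ 3 / Real.sin θ| ≤ 1 / Real.sin θ := fun θ hθ => by
  rw [abs_div, abs_of_pos (sin_pos_II hθ), abs_pow]
  exact div_le_div_of_nonneg_right (pow_le_one₀ (abs_nonneg _) (Real.abs_cos_le_one θ))
    (sin_pos_II hθ).le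

theorem gk1 : ∫ z : E n, |gk z| = 1 := by
  rw [← integral_gk (n := n)]
  exact integral_congr_ae (Eventually.of_forall fun z => abs_of_pos (gk_pos z))

section
variable {q2 : Fin n → Fin n → E n → ℝ} {q3 : Fin n → Fin n → Fin n → E n → ℝ} {S : ℝ}

theorem sing_bd (K : KT q2 q3 S) {G : E n → ℝ} {N : ℝ} (hN0 : 0 ≤ N) (hG : Continuous G)
    (hN : H0 N G) (j k : Fin n) {θ : ℝ} (hθ : θ ∈ II) (y : E n) :
    |Real.cos θ ^ 3 / Real.sin θ * J (q2 j k) G θ y| ≤
      N * S * (Real.sqrt (Real.sin θ))⁻¹ := by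
  rw [abs_mul]
  have hs := sin_pos_II hθ
  have m2 : ∫ z, q2 j k z = 0 := ker_mean (ker_g1 j) (K.k2 j) (K.d2 j) k
  calc |Real.cos θ ^ 3 / Real.sin θ| * |J (q2 j k) G θ y|
      ≤ 1 / Real.sin θ * (N * Real.sqrt (Real.sin θ) *
          ∫ z, Real.sqrt ‖z‖ * |q2 j k z|) :=
        mul_le_mul (w5b θ hθ) (hoelder_bd (K.k2 j k) m2 hG hN hθ y)
          (abs_nonneg _) (by positivity)
    _ ≤ 1 / Real.sin θ * (N * Real.sqrt (Real.sin θ) * S) :=
        mul_le_mul_of_nonneg_left (mul_le_mul_of_nonneg_left (K.S2 j k) (by positivity))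
          (by positivity)
    _ = N * S * (Real.sqrt (Real.sin θ) / Real.sin θ) := by ring
    _ = _ := by rw [sqrt_div_sin hs]

theorem sing_int (A : ℝ) : Integrable (fun θ => A * (Real.sqrt (Real.sin θ))⁻¹) μI := by
  refine Integrable.const_mul ?_ _
  refine integrable_half.mono' (meas_of_contOn ?_) (ae_II.mono fun θ hθ => ?_)
  · refine ContinuousOn.inv₀ (by fun_prop) fun θ hθ => (Real.sqrt_pos.2 (sin_pos_II hθ)).ne'
  · rw [Real.norm_eq_abs, abs_of_nonneg (by positivity)]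
    exact inv_sqrt_sin_le hθ

theorem der1 (K : KT q2 q3 S) {G : E n → ℝ} {N : ℝ} (hN0 : 0 ≤ N) (hG : Continuous G)
    (hN : ∀ x, |G x| ≤ N) (x : E n) :
    HasFDerivAt (VV (fun θ => Real.sin θ * Real.cos θ) gk G)
      (co fun j => VV (fun θ => Real.cos θ ^ 2) (fun z => z j * gk z) G x) x := by
  refine VV_ker (c := fun (j : Fin n) (z : E n) => z j * gk z)
    (b := fun _ => N * S) ker_gk (fun j => ker_g1 j) gk_hasFDerivAt
    hG hN w3c w4c (fun θ hθ => ?_) (fun θ hθ j y => ?_) (integrable_const _) x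
    (VV_int w3c ker_gk hG hN w3b x)
  · have := (sin_pos_II hθ).ne'
    field_simp
  · rw [abs_mul]
    calc |Real.cos θ ^ 2| * |J (fun z => z j * gk z) G θ y|
        ≤ 1 * (N * ∫ z : E n, |z j * gk z|) :=
          mul_le_mul (w4b θ hθ) (J_bd (ker_g1 j) hN θ y) (abs_nonneg _) zero_le_one
      _ ≤ 1 * (N * S) := by
          rw [one_mul, one_mul]
          exact mul_le_mul_of_nonneg_left (K.S1 j) hN0
      _ = N * S := one_mul _

theorem der2 (K : KT q2 q3 S) {G : E n → ℝ} {N : ℝ} (hN0 : 0 ≤ N) (hG : Continuous G)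
    (hN : H0 N G) (j : Fin n) (x : E n) :
    HasFDerivAt (VV (fun θ => Real.cos θ ^ 2) (fun z => z j * gk z) G)
      (co fun k => VV (fun θ => Real.cos θ ^ 3 / Real.sin θ) (q2 j k) G x) x := by
  refine VV_ker (b := fun θ => N * S * (Real.sqrt (Real.sin θ))⁻¹) (ker_g1 j) (K.k2 j)
    (K.d2 j) hG hN.1 w4c w5c (fun θ hθ => ?_) (fun θ hθ k y => sing_bd K hN0 hG hN j k hθ y)
    (sing_int _) x (VV_int w4c (ker_g1 j) hG hN.1 w4b x)
  ring

theorem hol3 (K : KT q2 q3 S) {G : E n → ℝ} {N : ℝ} (hN0 : 0 ≤ N) (hG : Continuous G)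
    (hN : H0 N G) (j k : Fin n) (x y : E n) :
    |VV (fun θ => Real.cos θ ^ 3 / Real.sin θ) (q2 j k) G x -
      VV (fun θ => Real.cos θ ^ 3 / Real.sin θ) (q2 j k) G y| ≤
      (4 * (2 * (N * S)) + 16 * (n * (N * S))) * Real.sqrt (dist x y) := by
  have hS0 := K.S0
  rcases eq_or_lt_of_le (dist_nonneg : 0 ≤ dist x y) with hd | hd
  · have : x = y := dist_eq_zero.1 hd.symm
    subst this
    simp
  have hint : ∀ x, Integrable
      (fun θ => Real.cos θ ^ 3 / Real.sin θ * J (q2 j k) G θ x) μI := fun x =>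
    (sing_int (N * S)).mono' (VV_meas w5c (K.k2 j k) hG hN.1 x)
      (ae_II.mono fun θ hθ => sing_bd K hN0 hG hN j k hθ x)
  unfold VV
  rw [← integral_sub (hint x) (hint y)]
  refine int_split hd (by positivity) (by positivity) (fun θ hθ => ?_) (fun θ hθ => ?_)
  · have h1 := sing_bd K hN0 hG hN j k hθ x
    have h2 := sing_bd K hN0 hG hN j k hθ y
    calc |Real.cos θ ^ 3 / Real.sin θ * J (q2 j k) G θ x -
        Real.cos θ ^ 3 / Real.sin θ * J (q2 j k) G θ y| ≤ _ := abs_sub _ _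
      _ ≤ N * S * (Real.sqrt (Real.sin θ))⁻¹ + N * S * (Real.sqrt (Real.sin θ))⁻¹ :=
          add_le_add h1 h2
      _ = _ := by ring
  · have hs := sin_pos_II hθ
    have hq := Real.sqrt_pos.2 hs
    rw [← mul_sub, abs_mul]
    have h1 : |J (q2 j k) G θ x - J (q2 j k) G θ y| ≤
        n * (1 / Real.sin θ * (N * Real.sqrt (Real.sin θ) * S)) * dist x y := by
      refine lip_of_pd (c := fun l x => Real.cos θ / Real.sin θ * J (q3 j k l) G θ x)
        (fun z => J_derivK (K.k2 j k) (K.k3 j k) (K.d3 j k) hG hN.1 hs z)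
        (fun l z => ?_) x y
      rw [abs_mul]
      refine mul_le_mul ?_ ?_ (abs_nonneg _) (by positivity)
      · rw [abs_div, abs_of_pos hs]
        exact div_le_div_of_nonneg_right (Real.abs_cos_le_one θ) hs.le
      · exact (hoelder_bd (K.k3 j k l) (ker_mean (K.k2 j k) (K.k3 j k) (K.d3 j k) l)
          hG hN hθ z).trans (mul_le_mul_of_nonneg_left (K.S3 j k l) (by positivity))
    calc |Real.cos θ ^ 3 / Real.sin θ| * |J (q2 j k) G θ x - J (q2 j k) G θ y|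
        ≤ 1 / Real.sin θ * (n * (1 / Real.sin θ * (N * Real.sqrt (Real.sin θ) * S)) *
            dist x y) := mul_le_mul (w5b θ hθ) h1 (abs_nonneg _) (by positivity)
      _ = n * (N * S) * dist x y * (1 / Real.sin θ *
            (Real.sqrt (Real.sin θ) / Real.sin θ)) := by ring
      _ = _ := by rw [sqrt_div_sin hs, one_div, ← mul_inv]

theorem cont_of_hol {f : E n → ℝ} {A : ℝ}
    (h : ∀ x y, |f x - f y| ≤ A * Real.sqrt (dist x y)) : Continuous f := by
  rw [Metric.continuous_iff']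
  intro x ε hε
  have h1 : Tendsto (fun y => A * Real.sqrt (dist y x)) (𝓝 x) (𝓝 0) := by
    have : Continuous fun y : E n => A * Real.sqrt (dist y x) := by fun_prop
    have h2 := this.tendsto x
    simpa using h2
  filter_upwards [h1.eventually (gt_mem_nhds hε)] with y hy
  rw [Real.dist_eq]
  exact (h y x).trans_lt hy

end

/-- The main regularity lemma. -/
theorem HB3_VV (n : ℕ) : ∃ C : ℝ, 0 ≤ C ∧ ∀ (F : E n → ℝ) (c : Fin n → E n → ℝ) (N : ℝ),
    0 ≤ N → (∀ y, HasFDerivAt F (co fun i => c i y) y) → (∀ i, Continuous (c i)) →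
    (∀ x, |F x| ≤ N) → (∀ i, H0 N (c i)) →
    HB 3 (C * N) (VV Real.sin gk F) := by
  obtain ⟨q2, q3, S, K⟩ := exists_KT n
  have hcH := cH_nonneg
  have hS0 := K.S0
  have hn0 : (0 : ℝ) ≤ n := Nat.cast_nonneg n
  refine ⟨4 + 4 * S + 2 * (S * cH) + 2 * n + 2 * (n * S) + n * (S * cH) + 8 * S +
    16 * (n * S), by positivity, fun F c N hN0 hF hcc hFN hcN => ?_⟩
  have hFc : Continuous F := continuous_iff_continuousAt.2 fun z => (hF z).continuousAt
  have d0 : ∀ x, HasFDerivAt (VV Real.sin gk F)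
      (co fun i => VV (fun θ => Real.sin θ * Real.cos θ) gk (c i) x) x := fun x =>
    VV_smooth ker_gk hF hcc hFN (fun i => (hcN i).1) w2c w3c (fun θ _ => rfl) w3b x
      (VV_int w2c ker_gk hFc hFN w2b x)
  have d1 := fun i => der1 K hN0 (hcc i) (hcN i).1
  have d2 := fun i => der2 K hN0 (hcc i) (hcN i)
  have B0 : ∀ x, |VV Real.sin gk F x| ≤ 2 * N := fun x => by
    have := VV_bd ker_gk hFN w2b zero_le_one hN0 x
    rw [gk1] at this
    linarith
  have B1 : ∀ i x, |VV (fun θ => Real.sin θ * Real.cos θ) gk (c i) x| ≤ 2 * N := fun i x => by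
    have := VV_bd ker_gk (hcN i).1 w3b zero_le_one hN0 x
    rw [gk1] at this
    linarith
  have B2 : ∀ i j x, |VV (fun θ => Real.cos θ ^ 2) (fun z => z j * gk z) (c i) x| ≤
      2 * (N * S) := fun i j x => by
    have h1 := VV_bd (ker_g1 j) (hcN i).1 w4b zero_le_one hN0 x
    have h2 : N * (∫ z : E n, |z j * gk z|) ≤ N * S := mul_le_mul_of_nonneg_left (K.S1 j) hN0
    linarith
  have B3 : ∀ i j k x, |VV (fun θ => Real.cos θ ^ 3 / Real.sin θ) (q2 j k) (c i) x| ≤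
      N * S * cH := fun i j k x =>
    int_half (fun θ hθ => sing_bd K hN0 (hcc i) (hcN i) j k hθ x) (by positivity)
  have L0 : ∀ x y, |VV Real.sin gk F x - VV Real.sin gk F y| ≤ n * (2 * N) * dist x y :=
    fun x y => lip_of_pd d0 (fun i x => B1 i x) x y
  have L1 : ∀ i x y, |VV (fun θ => Real.sin θ * Real.cos θ) gk (c i) x -
      VV (fun θ => Real.sin θ * Real.cos θ) gk (c i) y| ≤ n * (2 * (N * S)) * dist x y :=
    fun i x y => lip_of_pd (d1 i) (fun j x => B2 i j x) x y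
  have L2 : ∀ i j x y, |VV (fun θ => Real.cos θ ^ 2) (fun z => z j * gk z) (c i) x -
      VV (fun θ => Real.cos θ ^ 2) (fun z => z j * gk z) (c i) y| ≤
      n * (N * S * cH) * dist x y :=
    fun i j x y => lip_of_pd (d2 i j) (fun k x => B3 i j k x) x y
  have L3 := fun i => hol3 K hN0 (hcc i) (hcN i)
  have t0 : 0 ≤ (n : ℝ) * N := mul_nonneg hn0 hN0
  have t1 : 0 ≤ S * N := mul_nonneg hS0 hN0
  have t2 : 0 ≤ S * cH * N := mul_nonneg (mul_nonneg hS0 hcH) hN0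
  have t3 : 0 ≤ (n : ℝ) * S * N := mul_nonneg (mul_nonneg hn0 hS0) hN0
  have t4 : 0 ≤ (n : ℝ) * (S * cH) * N :=
    mul_nonneg (mul_nonneg hn0 (mul_nonneg hS0 hcH)) hN0
  refine HB3_of (f1 := fun i => VV (fun θ => Real.sin θ * Real.cos θ) gk (c i))
    (f2 := fun i j => VV (fun θ => Real.cos θ ^ 2) (fun z => z j * gk z) (c i))
    (f3 := fun i j k => VV (fun θ => Real.cos θ ^ 3 / Real.sin θ) (q2 j k) (c i))
    d0 d1 d2 (fun i j k => cont_of_hol (L3 i j k)) ?_ (fun i => ?_) (fun i j => ?_)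
    (fun i j k => ?_)
  · exact H0_of_lip B0 L0 (by linarith) (by linarith)
  · exact H0_of_lip (B1 i) (L1 i) (by linarith) (by linarith)
  · exact H0_of_lip (B2 i j) (L2 i j) (by linarith) (by linarith)
  · refine ⟨fun x => (B3 i j k x).trans (by linarith), fun x y => (L3 i j k x y).trans ?_⟩
    exact mul_le_mul_of_nonneg_right (by linarith) (Real.sqrt_nonneg _)

end CM87
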